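import Pool.Agent.R535.AK.Geo

/-!
# The full range implies the Minkowski-dimension form
-/

set_option autoImplicit false

namespace Pool.Agent.R535.AK

open Filter Topology Pool.Agent.W46.KK

open Classical in
/-- The `N`-element subsets `V'` of `V` such that some set `B` of diameter at most `H` contains a
`k`-term progression with every common difference in `V'` and is covered by fewer than `c N` sets of
diameter at most `δ`. -/
noncomputable def badSets {n : ℕ} (k : ℕ) (c δ H : ℝ) (V : Finset (EuclideanSpace ℝ (Fin n)))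
    (N : ℕ) : Finset (Finset (EuclideanSpace ℝ (Fin n))) :=
  (V.powersetCard N).filter fun V' : Finset (EuclideanSpace ℝ (Fin n)) =>
    ∃ B : Set (EuclideanSpace ℝ (Fin n)), (∀ x ∈ B, ∀ y ∈ B, dist x y ≤ H) ∧
      HasProg k (V' : Set (EuclideanSpace ℝ (Fin n))) B ∧ ∃ m : ℕ, CoveredBy δ m B ∧ (m : ℝ) < c * N

/-- In dimension `n`, almost all sets of `N ≤ |V| ^ τ` common differences from `V` are good. -/
def Good (n k : ℕ) (τ : ℝ) : Prop :=
  ∀ C : ℝ, ∃ c : ℝ, 0 < c ∧ ∀ δ H : ℝ, 0 < δ → 0 < H → ∀ V : Finset (EuclideanSpace ℝ (Fin n)),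
    Separated δ V → H / δ ≤ (V.card : ℝ) ^ C → ∀ N : ℕ, (N : ℝ) ≤ (V.card : ℝ) ^ τ →
      2 ^ N * (badSets k c δ H V N).card ≤ V.card.choose N

theorem good_of_SD {κ : ℝ} (hκ : 1 ≤ κ) (hSD : SD κ) : ∃ k : ℕ, ∀ n : ℕ, ∀ τ : ℝ, 0 < τ →
    τ < 1 / κ → Good n k τ := by
  obtain ⟨k, hk⟩ := rand_prog hκ hSD
  refine ⟨k, fun n τ hτ0 hτ C => ?_⟩
  have hκ0 : 0 < κ := by linarith
  have h1 : τ * κ < 1 := by rwa [lt_div_iff₀ hκ0] at hτ
  obtain ⟨c, hc, h⟩ := hk n C (1 - τ * κ) (by linarith) (by
    have : 0 < τ * κ := by positivity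
    linarith)
  refine ⟨c, hc, fun δ H hδ hH V hV hHδ N hN => h δ H hδ hH V hV hHδ N ?_⟩
  have h2 : (1 - (1 - τ * κ)) / κ = τ := by
    rw [sub_sub_cancel, mul_div_cancel_right₀ _ hκ0.ne']
  rwa [h2]

theorem dim_of_good {n k : ℕ} (hn : 1 ≤ n) {τ : ℝ} (hτ0 : 0 < τ) (hτ1 : τ ≤ 1)
    (hg : Good n k τ) : (((n : ℝ) * τ : ℝ) : EReal) ≤ fM n k := by
  obtain ⟨c, hc, hgood⟩ := hg 2
  unfold fM
  refine le_iInf fun B => le_iInf fun hB => le_iInf fun hP => ?_
  have hcnt : ∃ κ : ℝ, 0 < κ ∧ ∀ δ : ℝ, 0 < δ →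
      κ * δ ^ (-((n : ℝ) / (1 / τ))) ≤ (coverNum B δ : ℝ) := by
    obtain ⟨H₀, hH₀⟩ := hB.subset_closedBall (0 : EuclideanSpace ℝ (Fin n))
    set H : ℝ := max (2 * H₀) 1 with hH
    have hH1 : 1 ≤ H := le_max_right _ _
    have hdiam : ∀ x ∈ B, ∀ y ∈ B, dist x y ≤ H := by
      intro x hx y hy
      have h1 : dist x 0 ≤ H₀ := hH₀ hx
      have h2 : dist y 0 ≤ H₀ := hH₀ hy
      have h3 : dist x y ≤ dist x 0 + dist y 0 := dist_triangle_right _ _ _
      exact (h3.trans (by linarith)).trans (le_max_left _ _)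
    have he : (n : ℝ) / (1 / τ) = n * τ := by rw [div_div_eq_mul_div, div_one]
    rw [he]
    set e : ℝ := n * τ with hee
    have he0 : 0 < e := by
      have : (0 : ℝ) < n := by exact_mod_cast hn
      positivity
    have hsmall : ∀ δ : ℝ, 0 < δ → δ ≤ H⁻¹ → c / 2 * δ ^ (-e) ≤ (coverNum B δ : ℝ) := by
      intro δ hδ hδH
      set V : Finset (EuclideanSpace ℝ (Fin n)) := (grid n δ).image (fun v => WithLp.toLp 2 v)
        with hV
      have hVc : V.card = (grid n δ).card := by
        rw [hV]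
        exact Finset.card_image_of_injective _ (WithLp.toLp_injective 2)
      have hsep : Separated δ V := by
        intro v hv w hw hne
        obtain ⟨v', hv', rfl⟩ := Finset.mem_image.1 hv
        obtain ⟨w', hw', rfl⟩ := Finset.mem_image.1 hw
        exact grid_sep hδ hv' hw' (fun h' => hne (congrArg (WithLp.toLp 2) h'))
      have hcube : ∀ v ∈ V, ∀ i, v i ∈ Set.Icc (0 : ℝ) 1 := by
        intro v hv
        obtain ⟨w, hw, rfl⟩ := Finset.mem_image.1 hv
        exact fun i => grid_mem hδ hw i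
      have hδ1 : δ ≤ 1 := hδH.trans (inv_le_one_of_one_le₀ hH1)
      have hd1 : 1 ≤ 1 / δ := by rwa [le_div_iff₀ hδ, one_mul]
      have hcard : (1 / δ) ^ n ≤ (V.card : ℝ) := by
        rw [hVc]
        exact grid_card hδ
      have hcard1 : 1 / δ ≤ (V.card : ℝ) := (le_self_pow₀ hd1 (by omega)).trans hcard
      have hV1 : (1 : ℝ) ≤ V.card := hd1.trans hcard1
      have hHδ : H / δ ≤ (V.card : ℝ) ^ (2 : ℝ) := by
        have h1 : H ≤ 1 / δ := by
          rw [le_div_iff₀ hδ, mul_comm]
          calc δ * H ≤ H⁻¹ * H := by gcongr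
            _ = 1 := inv_mul_cancel₀ (by linarith)
        calc H / δ = H * (1 / δ) := by ring
          _ ≤ (V.card : ℝ) * V.card := by
              apply mul_le_mul (h1.trans hcard1) hcard1 (by positivity) (by positivity)
          _ = (V.card : ℝ) ^ (2 : ℝ) := by
              rw [Real.rpow_two]
              ring
      set N : ℕ := ⌊(V.card : ℝ) ^ τ⌋₊ with hN
      have hNle : (N : ℝ) ≤ (V.card : ℝ) ^ τ := Nat.floor_le (by positivity)
      have hVτ1 : 1 ≤ (V.card : ℝ) ^ τ := Real.one_le_rpow hV1 hτ0.le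
      have hN1 : 1 ≤ N := Nat.le_floor (by exact_mod_cast hVτ1)
      have hNhalf : (V.card : ℝ) ^ τ / 2 ≤ N := by
        have h1 := Nat.lt_floor_add_one ((V.card : ℝ) ^ τ)
        have h2 : (1 : ℝ) ≤ N := by exact_mod_cast hN1
        linarith
      have hNV : N ≤ V.card := by
        have h1 : (V.card : ℝ) ^ τ ≤ (V.card : ℝ) ^ (1 : ℝ) :=
          Real.rpow_le_rpow_of_exponent_le hV1 hτ1
        rw [Real.rpow_one] at h1
        exact_mod_cast hNle.trans h1
      have hb := hgood δ H hδ (by linarith) V hsep hHδ N hNle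
      have hex : ∃ V' ∈ V.powersetCard N, V' ∉ badSets k c δ H V N := by
        by_contra hcon
        push Not at hcon
        have h1 := Finset.card_le_card (show V.powersetCard N ⊆ badSets k c δ H V N from hcon)
        rw [Finset.card_powersetCard] at h1
        have h2 : 0 < V.card.choose N := Nat.choose_pos hNV
        have h3 : 2 * V.card.choose N ≤ V.card.choose N := by
          calc 2 * V.card.choose N ≤ 2 ^ N * (badSets k c δ H V N).card := by
                apply Nat.mul_le_mul _ h1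
                calc 2 = 2 ^ 1 := rfl
                  _ ≤ 2 ^ N := Nat.pow_le_pow_right (by norm_num) hN1
            _ ≤ V.card.choose N := hb
        omega
      obtain ⟨V', hV', hnb⟩ := hex
      have hcov : CoveredBy δ (coverNum B δ) B := Nat.sInf_mem (cover_nonempty hB hδ)
      have hprog : HasProg k (V' : Set (EuclideanSpace ℝ (Fin n))) B := fun r hr =>
        hP r (hcube r ((Finset.mem_powersetCard.1 hV').1 (by exact_mod_cast hr)))
      have h4 : c * N ≤ (coverNum B δ : ℝ) := by
        by_contra hcon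
        push Not at hcon
        apply hnb
        classical
        unfold badSets
        exact Finset.mem_filter.2 ⟨hV', B, hdiam, hprog, _, hcov, hcon⟩
      calc c / 2 * δ ^ (-e) = c * (((1 / δ) ^ n) ^ τ / 2) := by
            have h5 : ((1 / δ) ^ n) ^ τ = δ ^ (-e) := by
              rw [← Real.rpow_natCast, ← Real.rpow_mul (by positivity), one_div,
                Real.inv_rpow hδ.le, Real.rpow_neg hδ.le]
            rw [h5]
            ring
        _ ≤ c * ((V.card : ℝ) ^ τ / 2) := by gcongr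
        _ ≤ c * N := by gcongr
        _ ≤ _ := h4
    set κ₁ : ℝ := min (c / 2) (H⁻¹ ^ e) with hκ₁
    refine ⟨κ₁, lt_min (by positivity) (by positivity), fun δ hδ => ?_⟩
    rcases le_or_gt δ H⁻¹ with hδH | hδH
    · refine le_trans ?_ (hsmall δ hδ hδH)
      gcongr
      exact min_le_left _ _
    · -- large scales
      have hpos : 0 < (coverNum B H⁻¹ : ℝ) :=
        lt_of_lt_of_le (by positivity) (hsmall H⁻¹ (by positivity) le_rfl)
      have hne : B.Nonempty := by
        rw [Set.nonempty_iff_ne_empty]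
        intro h0
        have h1 : coverNum B H⁻¹ = 0 := by
          apply Nat.sInf_eq_zero.2
          left
          exact ⟨fun i => i.elim0, fun i => i.elim0, by rw [h0]; exact Set.empty_subset _⟩
        rw [h1] at hpos
        simp at hpos
      have h1 : 1 ≤ coverNum B δ := by
        rcases Nat.eq_zero_or_pos (coverNum B δ) with h0 | h0
        · exfalso
          obtain ⟨U, -, hU⟩ : CoveredBy δ (coverNum B δ) B := Nat.sInf_mem (cover_nonempty hB hδ)
          obtain ⟨x, hx⟩ := hne
          obtain ⟨i, _⟩ := Set.mem_iUnion.1 (hU hx)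
          rw [h0] at i
          exact i.elim0
        · exact h0
      have h2 : κ₁ * δ ^ (-e) ≤ 1 := by
        rw [Real.rpow_neg hδ.le, ← div_eq_mul_inv, div_le_one (by positivity)]
        refine (min_le_right _ _).trans ?_
        exact Real.rpow_le_rpow (by positivity) hδH.le he0.le
      exact h2.trans (by exact_mod_cast h1)
  obtain ⟨κ₁, hκ₁, hcnt⟩ := hcnt
  have he : (n : ℝ) / (1 / τ) = n * τ := by rw [div_div_eq_mul_div, div_one]
  refine le_of_forall_lt fun x hx => ?_
  obtain ⟨y, hxy, hy⟩ := EReal.lt_iff_exists_real_btwn.mp hx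
  refine lt_of_lt_of_le hxy ?_
  have hy' : y < (n : ℝ) / (1 / τ) := by
    rw [he]
    exact_mod_cast hy
  exact le_limsup_of_frequently_le
    (Eventually.frequently (Pool.Agent.R516.AKP.ev hκ₁ n (coverNum B) hcnt y hy'))
    (by isBoundedDefault)

end Pool.Agent.R535.AK
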