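import Pool.Agent.R535.AK.Count

/-!
# Random subsets of the set of values: abstract form
-/

set_option autoImplicit false

namespace Pool.Agent.R535.AK

theorem abs_lift (κ : ℝ) (hκ : 1 ≤ κ) (k : ℕ) (E : ℝ) (hE : 1 ≤ E) (C η : ℝ) (hη0 : 0 < η)
    (hη1 : η < 1) : ∃ δ : ℝ, 0 < δ ∧ δ ≤ 1 ∧ ∀ (α β γ ι : Type) [DecidableEq α] [DecidableEq β]
      [DecidableEq γ] [DecidableEq ι] (T : Finset ι) (g : ι → α → γ) (f : α → β) (X : Finset α)
      (D : Finset β), T.card ≤ k →
      (∀ A ⊆ X, ∀ M : ℕ, (∀ i ∈ T, (A.image (g i)).card ≤ M) →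
        ((A.image f).card : ℝ) ≤ (E * M) ^ κ) →
      (X.card : ℝ) ≤ (D.card : ℝ) ^ C → ∀ N : ℕ, (N : ℝ) ≤ (D.card : ℝ) ^ ((1 - η) / κ) →
      ∀ Q : Finset (Finset β), (∀ B ∈ Q, B ∈ D.powersetCard N ∧ ∃ A ⊆ X, B ⊆ A.image f ∧
        ∀ i ∈ T, ((A.image (g i)).card : ℝ) < δ * N) →
      2 ^ N * Q.card ≤ D.card.choose N := by
  have hκ0 : 0 < κ := by linarith
  set C' : ℝ := max C 1 with hC'
  have hC1 : 1 ≤ C' := le_max_right _ _
  set k' : ℝ := (k : ℝ) + 1 with hk'
  have hk1 : 1 ≤ k' := by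
    have : (0 : ℝ) ≤ (k : ℝ) := by positivity
    linarith
  have hE0 : 0 < E := by linarith
  set δ : ℝ := min (η / (2 * (C' + 1) * k')) (min (1 / E) ((2 : ℝ) ^ (-(2 / η)))) with hδ
  have hδ0 : 0 < δ := lt_min (by positivity) (lt_min (by positivity) (by positivity))
  have hδE : E * δ ≤ 1 := by
    have h1 : δ ≤ 1 / E := (min_le_right _ _).trans (min_le_left _ _)
    calc E * δ ≤ E * (1 / E) := by gcongr
      _ = 1 := by field_simp
  have hδ1 : δ ≤ 1 := by
    refine ((min_le_right _ _).trans (min_le_right _ _)).trans ?_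
    apply Real.rpow_le_one_of_one_le_of_nonpos (by norm_num)
    have : 0 < 2 / η := by positivity
    linarith
  refine ⟨δ, hδ0, hδ1, ?_⟩
  intro α β γ ι _ _ _ _ T g f X D hT hF hXD N hN Q hQ
  rcases Nat.eq_zero_or_pos N with hN00 | hN00
  · subst hN00
    have h1 : Q ⊆ D.powersetCard 0 := fun B hB => (hQ B hB).1
    have h2 := Finset.card_le_card h1
    rw [Finset.card_powersetCard] at h2
    simpa using h2
  by_cases hsmall : δ * N ≤ 1
  · have : Q = ∅ := by
      rw [Finset.eq_empty_iff_forall_notMem]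
      intro B hB
      obtain ⟨hB1, A, hA, hBA, hlt⟩ := hQ B hB
      have h1 : ∀ i ∈ T, (A.image (g i)).card ≤ 0 := by
        intro i hi
        have h2 : (((A.image (g i)).card : ℕ) : ℝ) < 1 := lt_of_lt_of_le (hlt i hi) hsmall
        have h3 : (A.image (g i)).card < 1 := by exact_mod_cast h2
        omega
      have h2 := hF A hA 0 h1
      rw [Nat.cast_zero, mul_zero, Real.zero_rpow hκ0.ne'] at h2
      have h3 : (A.image f).card = 0 := by
        have : (((A.image f).card : ℕ) : ℝ) ≤ 0 := h2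
        exact_mod_cast le_antisymm this (by positivity)
      have h4 : B = ∅ := by
        rw [Finset.card_eq_zero] at h3
        rw [h3] at hBA
        exact Finset.subset_empty.1 hBA
      rw [Finset.mem_powersetCard, h4] at hB1
      have h5 : N = 0 := by simpa using hB1.2.symm
      omega
    rw [this]
    simp
  push Not at hsmall
  set d := D.card with hd
  have hN1 : 1 / δ < N := by
    rw [div_lt_iff₀ hδ0]
    linarith
  have hNpos : (0 : ℝ) < N := lt_trans (by positivity) hN1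
  have hexp : 0 < (1 - η) / κ := div_pos (by linarith) hκ0
  have hd0 : 0 < d := by
    rcases Nat.eq_zero_or_pos d with h | h
    · rw [h, Nat.cast_zero, Real.zero_rpow hexp.ne'] at hN
      linarith
    · exact h
  have hd1 : (1 : ℝ) ≤ d := by exact_mod_cast hd0
  have hNd : (N : ℝ) ≤ d := by
    refine hN.trans ?_
    calc (d : ℝ) ^ ((1 - η) / κ) ≤ (d : ℝ) ^ (1 : ℝ) := by
          apply Real.rpow_le_rpow_of_exponent_le hd1
          rw [div_le_one hκ0]
          linarith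
      _ = d := Real.rpow_one _
  have hdbig : (2 : ℝ) ^ (2 / η) ≤ d := by
    have h1 : (2 : ℝ) ^ (2 / η) ≤ 1 / δ := by
      rw [le_div_iff₀ hδ0]
      calc (2 : ℝ) ^ (2 / η) * δ ≤ (2 : ℝ) ^ (2 / η) * (2 : ℝ) ^ (-(2 / η)) := by
            gcongr
            exact (min_le_right _ _).trans (min_le_right _ _)
        _ = 1 := by rw [← Real.rpow_add (by norm_num)]; simp
    linarith
  have hd2 : (2 : ℝ) ≤ (d : ℝ) ^ (η / 2) := by
    calc (2 : ℝ) = ((2 : ℝ) ^ (2 / η)) ^ (η / 2) := by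
          rw [← Real.rpow_mul (by norm_num)]
          have : 2 / η * (η / 2) = 1 := by field_simp
          rw [this, Real.rpow_one]
      _ ≤ (d : ℝ) ^ (η / 2) := Real.rpow_le_rpow (by positivity) hdbig (by positivity)
  have hd22 : (2 : ℝ) ≤ d := by
    calc (2 : ℝ) ≤ (d : ℝ) ^ (η / 2) := hd2
      _ ≤ (d : ℝ) ^ (1 : ℝ) := Real.rpow_le_rpow_of_exponent_le hd1 (by linarith)
      _ = d := Real.rpow_one _
  set M : ℕ := ⌊δ * N⌋₊ with hM
  have hMle : (M : ℝ) ≤ δ * N := Nat.floor_le (by positivity)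
  set F : ℕ := ⌊(E * (M : ℝ)) ^ κ⌋₊ with hF'
  have hFle : (F : ℝ) ≤ (E * (M : ℝ)) ^ κ := Nat.floor_le (by positivity)
  have hFd : (F : ℝ) ≤ (d : ℝ) ^ (1 - η) := by
    calc (F : ℝ) ≤ (E * (M : ℝ)) ^ κ := hFle
      _ ≤ (N : ℝ) ^ κ := by
          apply Real.rpow_le_rpow (by positivity) _ hκ0.le
          calc E * (M : ℝ) ≤ E * (δ * N) := by gcongr
            _ = (E * δ) * N := by ring
            _ ≤ 1 * N := by gcongr
            _ = N := one_mul _
      _ ≤ ((d : ℝ) ^ ((1 - η) / κ)) ^ κ := Real.rpow_le_rpow (by positivity) hN hκ0.le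
      _ = (d : ℝ) ^ (1 - η) := by
          rw [← Real.rpow_mul (by positivity), div_mul_cancel₀ _ hκ0.ne']
  have hFd1 : F ≤ d := by
    have h1 : (d : ℝ) ^ (1 - η) ≤ (d : ℝ) ^ (1 : ℝ) :=
      Real.rpow_le_rpow_of_exponent_le hd1 (by linarith)
    rw [Real.rpow_one] at h1
    exact_mod_cast hFd.trans h1
  have hcount := count_lifts T g f X D M F N
    (fun A hA hA2 => Nat.le_floor (hF A hA M hA2)) Q
    (by
      intro B hB
      obtain ⟨h1, A, h2, h3, h4⟩ := hQ B hB
      refine ⟨h1, A, h2, h3, fun i hi => ?_⟩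
      apply Nat.le_floor
      exact (h4 i hi).le)
  have hratio := choose_ratio F d N hFd1
  -- the numerical inequality
  have hX1 : ((X.card : ℝ) + 1) ≤ (d : ℝ) ^ (C' + 1) := by
    have h1 : (X.card : ℝ) ≤ (d : ℝ) ^ C' :=
      hXD.trans (Real.rpow_le_rpow_of_exponent_le hd1 (le_max_left _ _))
    have h2 : (1 : ℝ) ≤ (d : ℝ) ^ C' := Real.one_le_rpow hd1 (by linarith)
    rw [Real.rpow_add (by linarith), Real.rpow_one]
    nlinarith
  have hTk : ((T.card : ℕ) : ℝ) ≤ k' := by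
    have : ((T.card : ℕ) : ℝ) ≤ k := by exact_mod_cast hT
    linarith
  have hnum : (2 : ℝ) ^ N * ((X.card : ℝ) + 1) ^ (T.card * M) * (F : ℝ) ^ N ≤ (d : ℝ) ^ N := by
    have h1 : ((X.card : ℝ) + 1) ^ (T.card * M) ≤ ((d : ℝ) ^ (η / 2)) ^ N := by
      calc ((X.card : ℝ) + 1) ^ (T.card * M)
          ≤ ((d : ℝ) ^ (C' + 1)) ^ (T.card * M) := by
            apply pow_le_pow_left₀ (by positivity) hX1
        _ = (d : ℝ) ^ ((C' + 1) * (T.card * M)) := by
            rw [← Real.rpow_natCast, ← Real.rpow_mul (by positivity)]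
            push_cast
            rfl
        _ ≤ (d : ℝ) ^ (η / 2 * N) := by
            apply Real.rpow_le_rpow_of_exponent_le hd1
            calc (C' + 1) * (T.card * M) ≤ (C' + 1) * (k' * (δ * N)) := by gcongr
              _ ≤ (C' + 1) * (k' * (η / (2 * (C' + 1) * k') * N)) := by
                  gcongr
                  exact min_le_left _ _
              _ = η / 2 * N := by field_simp
        _ = ((d : ℝ) ^ (η / 2)) ^ N := by
            rw [Real.rpow_mul (by positivity), Real.rpow_natCast]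
    calc (2 : ℝ) ^ N * ((X.card : ℝ) + 1) ^ (T.card * M) * (F : ℝ) ^ N
        ≤ ((d : ℝ) ^ (η / 2)) ^ N * ((d : ℝ) ^ (η / 2)) ^ N * ((d : ℝ) ^ (1 - η)) ^ N := by
          gcongr
      _ = (d : ℝ) ^ N := by
          rw [← mul_pow, ← mul_pow, ← Real.rpow_add (by linarith), ← Real.rpow_add (by linarith)]
          congr 1
          have : η / 2 + η / 2 + (1 - η) = 1 := by ring
          rw [this, Real.rpow_one]
  have hnum' : 2 ^ N * (X.card + 1) ^ (T.card * M) * F ^ N ≤ d ^ N := by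
    exact_mod_cast hnum
  have hdN : 0 < d ^ N := Nat.pow_pos hd0
  apply Nat.le_of_mul_le_mul_right _ hdN
  calc 2 ^ N * Q.card * d ^ N
      ≤ 2 ^ N * ((X.card + 1) ^ (T.card * M) * F.choose N) * d ^ N := by gcongr
    _ = 2 ^ N * (X.card + 1) ^ (T.card * M) * (F.choose N * d ^ N) := by ring
    _ ≤ 2 ^ N * (X.card + 1) ^ (T.card * M) * (d.choose N * F ^ N) := by gcongr
    _ = d.choose N * (2 ^ N * (X.card + 1) ^ (T.card * M) * F ^ N) := by ring
    _ ≤ d.choose N * d ^ N := by gcongr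

end Pool.Agent.R535.AK
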