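import Mathlib

/-!
# Counting the subsets with few values of several functions

Let `g i`, `i ∈ T`, be functions on a finite set `X`. A subset `A` on which every `g i` takes at most
`M` values contains a set `A₀` of at most `|T| M` elements on which the `g i` take the same values, and
it is contained in the set of all elements of `X` at which the `g i` take values of this kind.
-/

set_option autoImplicit false

namespace Pool.Agent.R535.AK

variable {α β γ ι : Type} [DecidableEq α] [DecidableEq β] [DecidableEq γ] [DecidableEq ι]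

theorem exists_small (T : Finset ι) (g : ι → α → γ) (A : Finset α) (M : ℕ)
    (h : ∀ i ∈ T, (A.image (g i)).card ≤ M) :
    ∃ A0 ⊆ A, A0.card ≤ T.card * M ∧ ∀ i ∈ T, A.image (g i) ⊆ A0.image (g i) := by
  have key : ∀ i, ∃ B ⊆ A, B.card ≤ (A.image (g i)).card ∧ A.image (g i) ⊆ B.image (g i) := by
    intro i
    obtain ⟨s, hs, hb⟩ := Set.exists_subset_bijOn (A : Set α) (g i)
    have hfin : s.Finite := A.finite_toSet.subset hs
    refine ⟨hfin.toFinset, by simpa using hs, ?_, ?_⟩
    · have h1 : (hfin.toFinset.image (g i)).card = hfin.toFinset.card := by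
        apply Finset.card_image_of_injOn
        intro x hx y hy hxy
        exact hb.injOn (by simpa using hx) (by simpa using hy) hxy
      rw [← h1]
      apply Finset.card_le_card
      apply Finset.image_subset_image
      simpa using hs
    · intro z hz
      have hz' : z ∈ g i '' (A : Set α) := by simpa using hz
      rw [← hb.image_eq] at hz'
      obtain ⟨x, hx, rfl⟩ := hz'
      exact Finset.mem_image_of_mem _ (by simpa using hx)
  choose B hB1 hB2 hB3 using key
  refine ⟨T.biUnion B, Finset.biUnion_subset.2 fun i _ => hB1 i, ?_, fun i hi => ?_⟩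
  · exact Finset.card_biUnion_le_card_mul _ _ _ fun i hi => (hB2 i).trans (h i hi)
  · exact (hB3 i).trans (Finset.image_subset_image (Finset.subset_biUnion_of_mem B hi))

/-- the elements of `X` at which all `g i` take values which they take on `A0` -/
def clo (T : Finset ι) (g : ι → α → γ) (X A0 : Finset α) : Finset α :=
  X.filter fun x => ∀ i ∈ T, g i x ∈ A0.image (g i)

theorem clo_subset (T : Finset ι) (g : ι → α → γ) (X A0 : Finset α) : clo T g X A0 ⊆ X :=
  Finset.filter_subset _ _

theorem clo_image (T : Finset ι) (g : ι → α → γ) (X A0 : Finset α) (i : ι) (hi : i ∈ T) :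
    (clo T g X A0).image (g i) ⊆ A0.image (g i) := by
  intro z hz
  obtain ⟨x, hx, rfl⟩ := Finset.mem_image.1 hz
  exact (Finset.mem_filter.1 hx).2 i hi

theorem sub_clo (T : Finset ι) (g : ι → α → γ) (X A A0 : Finset α) (hA : A ⊆ X)
    (h : ∀ i ∈ T, A.image (g i) ⊆ A0.image (g i)) : A ⊆ clo T g X A0 := by
  intro x hx
  exact Finset.mem_filter.2 ⟨hA hx, fun i hi => h i hi (Finset.mem_image_of_mem _ hx)⟩

theorem sum_choose_le (n K : ℕ) : ∑ j ∈ Finset.range (K + 1), n.choose j ≤ (n + 1) ^ K := by
  rw [add_pow]
  apply Finset.sum_le_sum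
  intro j hj
  have hj' : j ≤ K := by simpa [Nat.lt_succ_iff] using hj
  have h1 : n.choose j ≤ n ^ j := Nat.choose_le_pow n j
  have h2 : 1 ≤ K.choose j := Nat.choose_pos hj'
  calc n.choose j ≤ n ^ j := h1
    _ = n ^ j * 1 * 1 := by ring
    _ ≤ n ^ j * 1 ^ (K - j) * K.choose j := by
        rw [one_pow]
        exact Nat.mul_le_mul_left _ h2

/-- the number of the `N`-element subsets `B` of `D` which are covered by the values of `f` on a set
`A ⊆ X` on which all `g i` take at most `M` values -/
theorem count_lifts (T : Finset ι) (g : ι → α → γ) (f : α → β) (X : Finset α) (D : Finset β)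
    (M F N : ℕ)
    (hF : ∀ A ⊆ X, (∀ i ∈ T, (A.image (g i)).card ≤ M) → (A.image f).card ≤ F)
    (S : Finset (Finset β)) (hS : ∀ B ∈ S, B ∈ D.powersetCard N ∧
      ∃ A ⊆ X, B ⊆ A.image f ∧ ∀ i ∈ T, (A.image (g i)).card ≤ M) :
    S.card ≤ (X.card + 1) ^ (T.card * M) * F.choose N := by
  set K := T.card * M with hK
  have hsub : S ⊆ (((Finset.range (K + 1)).biUnion fun j => X.powersetCard j).filter
      (fun A0 => ∀ i ∈ T, (A0.image (g i)).card ≤ M)).biUnion
      fun A0 => ((clo T g X A0).image f).powersetCard N := by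
    intro B hB
    obtain ⟨hB1, A, hA, hBA, hM⟩ := hS B hB
    obtain ⟨A0, h0, h1, h2⟩ := exists_small T g A M hM
    rw [Finset.mem_biUnion]
    refine ⟨A0, ?_, ?_⟩
    · rw [Finset.mem_filter, Finset.mem_biUnion]
      refine ⟨⟨A0.card, by simpa [Nat.lt_succ_iff] using h1,
        Finset.mem_powersetCard.2 ⟨h0.trans hA, rfl⟩⟩, fun i hi => ?_⟩
      exact (Finset.card_le_card (Finset.image_subset_image h0)).trans (hM i hi)
    · rw [Finset.mem_powersetCard] at hB1 ⊢
      exact ⟨hBA.trans (Finset.image_subset_image (sub_clo T g X A A0 hA h2)), hB1.2⟩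
  refine (Finset.card_le_card hsub).trans ?_
  refine (Finset.card_biUnion_le_card_mul _ _ (F.choose N) ?_).trans ?_
  · intro A0 hA0
    rw [Finset.card_powersetCard]
    apply Nat.choose_le_choose
    apply hF _ (clo_subset T g X A0)
    intro i hi
    exact (Finset.card_le_card (clo_image T g X A0 i hi)).trans ((Finset.mem_filter.1 hA0).2 i hi)
  · apply Nat.mul_le_mul_right
    refine (Finset.card_filter_le _ _).trans ?_
    refine Finset.card_biUnion_le.trans ?_
    simp only [Finset.card_powersetCard]
    exact sum_choose_le _ _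

/-- the number of the `N`-element subsets of `X` on which all `g i` take at most `M` values -/
theorem count_subsets (T : Finset ι) (g : ι → α → γ) (X : Finset α) (M F N : ℕ)
    (hF : ∀ A ⊆ X, (∀ i ∈ T, (A.image (g i)).card ≤ M) → A.card ≤ F)
    (S : Finset (Finset α)) (hS : ∀ A ∈ S, A ∈ X.powersetCard N ∧
      ∀ i ∈ T, (A.image (g i)).card ≤ M) :
    S.card ≤ ∑ j ∈ Finset.range (T.card * M + 1), X.card.choose j * F.choose (N - j) := by
  set K := T.card * M with hK
  have hsub : S ⊆ (Finset.range (K + 1)).biUnion fun j =>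
      ((X.powersetCard j).filter (fun A0 => ∀ i ∈ T, (A0.image (g i)).card ≤ M)).biUnion
      fun A0 => ((clo T g X A0).powersetCard (N - j)).image (fun B => A0 ∪ B) := by
    intro A hA
    obtain ⟨hA1, hM⟩ := hS A hA
    rw [Finset.mem_powersetCard] at hA1
    obtain ⟨A0, h0, h1, h2⟩ := exists_small T g A M hM
    rw [Finset.mem_biUnion]
    refine ⟨A0.card, by simpa [Nat.lt_succ_iff] using h1, ?_⟩
    rw [Finset.mem_biUnion]
    refine ⟨A0, ?_, ?_⟩
    · rw [Finset.mem_filter]
      refine ⟨Finset.mem_powersetCard.2 ⟨h0.trans hA1.1, rfl⟩, fun i hi => ?_⟩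
      exact (Finset.card_le_card (Finset.image_subset_image h0)).trans (hM i hi)
    · rw [Finset.mem_image]
      refine ⟨A \ A0, ?_, Finset.union_sdiff_of_subset h0⟩
      rw [Finset.mem_powersetCard]
      refine ⟨Finset.sdiff_subset.trans (sub_clo T g X A A0 hA1.1 h2), ?_⟩
      rw [Finset.card_sdiff_of_subset h0, hA1.2]
  refine (Finset.card_le_card hsub).trans ?_
  refine Finset.card_biUnion_le.trans ?_
  apply Finset.sum_le_sum
  intro j _
  refine (Finset.card_biUnion_le_card_mul _ _ (F.choose (N - j)) ?_).trans ?_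
  · intro A0 hA0
    refine Finset.card_image_le.trans ?_
    rw [Finset.card_powersetCard]
    apply Nat.choose_le_choose
    apply hF _ (clo_subset T g X A0)
    intro i hi
    exact (Finset.card_le_card (clo_image T g X A0 i hi)).trans ((Finset.mem_filter.1 hA0).2 i hi)
  · apply Nat.mul_le_mul_right
    refine (Finset.card_filter_le _ _).trans ?_
    rw [Finset.card_powersetCard]

/-- `C(F, N) d ^ N ≤ C(d, N) F ^ N` for `F ≤ d` -/
theorem choose_ratio (F d N : ℕ) (h : F ≤ d) : F.choose N * d ^ N ≤ d.choose N * F ^ N := by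
  have key : F.descFactorial N * d ^ N ≤ d.descFactorial N * F ^ N := by
    induction N with
    | zero => simp
    | succ N ih =>
      rw [Nat.descFactorial_succ, Nat.descFactorial_succ, pow_succ, pow_succ]
      have h1 : (F - N) * d ≤ (d - N) * F := by
        rcases le_total F N with h2 | h2
        · rw [Nat.sub_eq_zero_of_le h2]; simp
        · obtain ⟨a, rfl⟩ := Nat.exists_eq_add_of_le h2
          obtain ⟨b, rfl⟩ := Nat.exists_eq_add_of_le h
          have e1 : N + a - N = a := by omega
          have e2 : N + a + b - N = a + b := by omega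
          rw [e1, e2]
          nlinarith [Nat.zero_le (b * N)]
      calc (F - N) * F.descFactorial N * (d ^ N * d)
          = ((F - N) * d) * (F.descFactorial N * d ^ N) := by ring
        _ ≤ ((d - N) * F) * (d.descFactorial N * F ^ N) := Nat.mul_le_mul h1 ih
        _ = (d - N) * d.descFactorial N * (F ^ N * F) := by ring
  have h1 : N.factorial * (F.choose N * d ^ N) ≤ N.factorial * (d.choose N * F ^ N) := by
    rw [Nat.descFactorial_eq_factorial_mul_choose, Nat.descFactorial_eq_factorial_mul_choose] at key
    calc _ = N.factorial * F.choose N * d ^ N := by ring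
      _ ≤ _ := key
      _ = _ := by ring
  exact Nat.le_of_mul_le_mul_left h1 (Nat.factorial_pos N)

/-- the estimate of the sum in `count_subsets` -/
theorem sum_small (n F N K : ℕ) (hK : 2 * K ≤ N) (hF : 32 * F ≤ n) (hN : N ≤ n) :
    2 ^ N * ∑ j ∈ Finset.range (K + 1), n.choose j * F.choose (N - j) ≤ n.choose N := by
  have h1 : ∀ j ∈ Finset.range (K + 1), 4 ^ N * (n.choose j * F.choose (N - j)) ≤
      n.choose N * N.choose j := by
    intro j hj
    have hj1 : j ≤ K := by simpa [Nat.lt_succ_iff] using hj
    have hj2 : j ≤ N := by omega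
    have h2 : n.choose N * N.choose j = n.choose j * (n - j).choose (N - j) := Nat.choose_mul hj2
    have h3 : F.choose (N - j) * (n - j) ^ (N - j) ≤ (n - j).choose (N - j) * F ^ (N - j) :=
      choose_ratio _ _ _ (by omega)
    rcases Nat.eq_zero_or_pos F with hF0 | hF0
    · -- F = 0
      subst hF0
      rcases Nat.eq_zero_or_pos (N - j) with h4 | h4
      · have h5 : N = 0 := by omega
        subst h5
        have h6 : j = 0 := by omega
        subst h6
        simp
      · rw [Nat.choose_eq_zero_of_lt h4]
        simp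
    · have h4 : 16 * F ≤ n - j := by omega
      have h5 : (16 * F) ^ (N - j) ≤ (n - j) ^ (N - j) := Nat.pow_le_pow_left h4 _
      have h6 : F.choose (N - j) * (16 * F) ^ (N - j) ≤ (n - j).choose (N - j) * F ^ (N - j) :=
        (Nat.mul_le_mul_left _ h5).trans h3
      have h7 : F.choose (N - j) * 16 ^ (N - j) ≤ (n - j).choose (N - j) := by
        have h8 : 0 < F ^ (N - j) := Nat.pow_pos hF0
        apply Nat.le_of_mul_le_mul_right _ h8
        calc _ = F.choose (N - j) * (16 * F) ^ (N - j) := by rw [mul_pow]; ring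
          _ ≤ _ := h6
      have h9 : 4 ^ N ≤ 16 ^ (N - j) := by
        calc 4 ^ N ≤ 4 ^ (2 * (N - j)) := Nat.pow_le_pow_right (by norm_num) (by omega)
          _ = 16 ^ (N - j) := by rw [pow_mul]; norm_num
      rw [h2]
      calc 4 ^ N * (n.choose j * F.choose (N - j))
          ≤ 16 ^ (N - j) * (n.choose j * F.choose (N - j)) := Nat.mul_le_mul_right _ h9
        _ = n.choose j * (F.choose (N - j) * 16 ^ (N - j)) := by ring
        _ ≤ n.choose j * (n - j).choose (N - j) := Nat.mul_le_mul_left _ h7
  have h2 : 4 ^ N * ∑ j ∈ Finset.range (K + 1), n.choose j * F.choose (N - j) ≤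
      n.choose N * 2 ^ N := by
    rw [Finset.mul_sum]
    calc _ ≤ ∑ j ∈ Finset.range (K + 1), n.choose N * N.choose j := Finset.sum_le_sum h1
      _ = n.choose N * ∑ j ∈ Finset.range (K + 1), N.choose j := by rw [Finset.mul_sum]
      _ ≤ n.choose N * ∑ j ∈ Finset.range (N + 1), N.choose j := by
          apply Nat.mul_le_mul_left
          apply Finset.sum_le_sum_of_subset
          intro x hx
          simp only [Finset.mem_range] at hx ⊢
          omega
      _ = n.choose N * 2 ^ N := by rw [Nat.sum_range_choose]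
  have h3 : 0 < 2 ^ N := by positivity
  apply Nat.le_of_mul_le_mul_right _ h3
  calc _ = 4 ^ N * ∑ j ∈ Finset.range (K + 1), n.choose j * F.choose (N - j) := by
        have : 4 ^ N = 2 ^ N * 2 ^ N := by rw [← mul_pow]; norm_num
        rw [this]; ring
    _ ≤ _ := h2

end Pool.Agent.R535.AK
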