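import Mathlib

/-!
# Projections of finite sets of integer points
-/

set_option autoImplicit false

namespace Pool.Agent.R535.AK

/-- the projection `π_r(A) = {x + r y : (x, y) ∈ A}` -/
def proj (r : ℚ) (A : Finset (ℤ × ℤ)) : Finset ℚ :=
  A.image (fun p : ℤ × ℤ => (p.1 : ℚ) + r * (p.2 : ℚ))

/-- the projection `π_∞(A) = {y : (x, y) ∈ A}` -/
def projInf (A : Finset (ℤ × ℤ)) : Finset ℚ := A.image (fun p : ℤ × ℤ => (p.2 : ℚ))

/-- the largest size of a projection of `A` with slope `∞` or in `S` -/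
def big (S : Finset ℚ) (A : Finset (ℤ × ℤ)) : ℕ :=
  max (projInf A).card (S.sup fun r => (proj r A).card)

/-- the set of the differences `x - y`, `(x, y) ∈ A`, the projection `π₋₁(A)` as a set of integers -/
def diffs (A : Finset (ℤ × ℤ)) : Finset ℤ := A.image (fun p : ℤ × ℤ => p.1 - p.2)

/-- the inequality of the conjecture with exponent `κ` for the slopes `∞` and `r ∈ S` -/
def Bound (S : Finset ℚ) (κ : ℝ) : Prop :=
  ∀ A : Finset (ℤ × ℤ), ((proj (-1) A).card : ℝ) ≤ (big S A : ℝ) ^ κ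

/-- the arithmetic Kakeya conjecture in projection form (the statement of the problem) -/
def Conjecture : Prop :=
  ∀ ε : ℝ, 0 < ε → ∃ S : Finset ℚ, (-1 : ℚ) ∉ S ∧ Bound S (1 + ε)

open Classical in
/-- the form for random subsets: for every `ε` there are slopes `S` and `δ > 0` such that, if `x - y` is
injective on the finite set `X` and `N ≤ δ |X| ^ (1 - ε)`, then all but a proportion `2 ^ (-N)` of the
`N`-element subsets `A` of `X` have a projection with at least `δ N = δ |π₋₁(A)|` elements -/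
def SubForm : Prop :=
  ∀ ε : ℝ, 0 < ε → ε < 1 → ∃ S : Finset ℚ, (-1 : ℚ) ∉ S ∧ ∃ δ : ℝ, 0 < δ ∧
    ∀ X : Finset (ℤ × ℤ), Set.InjOn (fun p : ℤ × ℤ => p.1 - p.2) (X : Set (ℤ × ℤ)) →
    ∀ N : ℕ, (N : ℝ) ≤ δ * (X.card : ℝ) ^ (1 - ε) →
      2 ^ N * ((X.powersetCard N).filter (fun A => (big S A : ℝ) < δ * N)).card ≤ X.card.choose N

open Classical in
/-- the form for random sets of differences: for all `C`, `ε` there are slopes `S` and `δ > 0` such
that, if `D` is a finite set of integers, `X` a finite set of integer points with `|X| ≤ |D| ^ C` and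
`N ≤ |D| ^ (1 - ε)`, then all but a proportion `2 ^ (-N)` of the `N`-element subsets `B` of `D` have the
following property: every set `A ⊆ X` with `B ⊆ π₋₁(A)` has a projection with at least `δ N`
elements -/
def LiftForm : Prop :=
  ∀ C ε : ℝ, 0 < ε → ε < 1 → ∃ S : Finset ℚ, (-1 : ℚ) ∉ S ∧ ∃ δ : ℝ, 0 < δ ∧
    ∀ (D : Finset ℤ) (X : Finset (ℤ × ℤ)), (X.card : ℝ) ≤ (D.card : ℝ) ^ C →
    ∀ N : ℕ, (N : ℝ) ≤ (D.card : ℝ) ^ (1 - ε) →
      2 ^ N * ((D.powersetCard N).filter
        (fun B => ∃ A ⊆ X, B ⊆ diffs A ∧ (big S A : ℝ) < δ * N)).card ≤ D.card.choose N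

end Pool.Agent.R535.AK
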