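import Pool.Agent.R535.AK.Main

/-!
# The conjecture is equivalent to its forms for random sets
-/

set_option autoImplicit false

namespace Pool.Agent.R535.AK

open Classical

/-- one good subset is enough -/
def WeakForm : Prop :=
  ∀ ε : ℝ, 0 < ε → ε < 1 → ∃ S : Finset ℚ, (-1 : ℚ) ∉ S ∧ ∃ δ : ℝ, 0 < δ ∧ δ ≤ 1 ∧
    ∀ X : Finset (ℤ × ℤ), Set.InjOn (fun p : ℤ × ℤ => p.1 - p.2) (X : Set (ℤ × ℤ)) →
    ∀ N : ℕ, 0 < N → (N : ℝ) ≤ δ * (X.card : ℝ) ^ (1 - ε) →
      ∃ A ⊆ X, A.card = N ∧ δ * N ≤ (big S A : ℝ)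

theorem le_card {X : ℕ} {N : ℕ} {δ ε : ℝ} (hδ : δ ≤ 1) (hε0 : 0 < ε) (hε1 : ε < 1)
    (h : (N : ℝ) ≤ δ * (X : ℝ) ^ (1 - ε)) : N ≤ X := by
  rcases Nat.eq_zero_or_pos X with h0 | h0
  · rw [h0, Nat.cast_zero, Real.zero_rpow (by linarith), mul_zero] at h
    have : N = 0 := by exact_mod_cast le_antisymm h (by positivity)
    omega
  · have h1 : (1 : ℝ) ≤ X := by exact_mod_cast h0
    have h2 : (X : ℝ) ^ (1 - ε) ≤ X := by
      calc (X : ℝ) ^ (1 - ε) ≤ (X : ℝ) ^ (1 : ℝ) :=
            Real.rpow_le_rpow_of_exponent_le h1 (by linarith)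
        _ = X := Real.rpow_one _
    have h3 : 0 ≤ (X : ℝ) ^ (1 - ε) := by positivity
    have h4 : (N : ℝ) ≤ X := by nlinarith
    exact_mod_cast h4

theorem SubForm.weak (h : SubForm) : WeakForm := by
  intro ε hε0 hε1
  obtain ⟨S, hS, δ, hδ, h1⟩ := h ε hε0 hε1
  refine ⟨S, hS, min δ 1, lt_min hδ one_pos, min_le_right _ _, fun X hX N hN0 hN => ?_⟩
  have hNX : N ≤ X.card := le_card (min_le_right _ _) hε0 hε1 hN
  have h2 := h1 X hX N (hN.trans (by gcongr; exact min_le_left _ _))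
  by_contra hcon
  push Not at hcon
  have h3 : (X.powersetCard N).filter (fun A => (big S A : ℝ) < δ * N) = X.powersetCard N := by
    apply Finset.filter_true_of_mem
    intro A hA
    rw [Finset.mem_powersetCard] at hA
    refine (hcon A hA.1 hA.2).trans_le ?_
    gcongr
    exact min_le_left _ _
  rw [h3, Finset.card_powersetCard] at h2
  have h4 : 0 < X.card.choose N := Nat.choose_pos hNX
  have h5 : 2 ^ 1 ≤ 2 ^ N := Nat.pow_le_pow_right (by norm_num) hN0
  nlinarith

theorem LiftForm.weak (h : LiftForm) : WeakForm := by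
  intro ε hε0 hε1
  obtain ⟨S, hS, δ, hδ, h1⟩ := h 1 ε hε0 hε1
  refine ⟨S, hS, min δ 1, lt_min hδ one_pos, min_le_right _ _, fun X hX N hN0 hN => ?_⟩
  have hNX : N ≤ X.card := le_card (min_le_right _ _) hε0 hε1 hN
  have hD : (diffs X).card = X.card := Finset.card_image_of_injOn hX
  have hX0 : (0 : ℝ) ≤ (X.card : ℝ) ^ (1 - ε) := by positivity
  have h2 := h1 (diffs X) X (by rw [hD, Real.rpow_one]) N (by
    rw [hD]
    refine hN.trans ?_
    have : min δ 1 ≤ 1 := min_le_right _ _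
    nlinarith)
  by_contra hcon
  push Not at hcon
  have h3 : ((diffs X).powersetCard N).filter
      (fun B => ∃ A ⊆ X, B ⊆ diffs A ∧ (big S A : ℝ) < δ * N) = (diffs X).powersetCard N := by
    apply Finset.filter_true_of_mem
    intro B hB
    rw [Finset.mem_powersetCard] at hB
    obtain ⟨hB1, hB2⟩ := hB
    refine ⟨X.filter (fun p => p.1 - p.2 ∈ B), Finset.filter_subset _ _, ?_, ?_⟩
    · intro z hz
      obtain ⟨p, hp, rfl⟩ := Finset.mem_image.1 (hB1 hz)
      exact Finset.mem_image.2 ⟨p, Finset.mem_filter.2 ⟨hp, hz⟩, rfl⟩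
    · have hcard : (X.filter (fun p => p.1 - p.2 ∈ B)).card = N := by
        rw [← hB2, ← Finset.card_image_of_injOn (f := fun p : ℤ × ℤ => p.1 - p.2)
          (hX.mono (by intro p hp; exact (Finset.mem_filter.1 hp).1))]
        congr 1
        apply Finset.Subset.antisymm
        · intro z hz
          obtain ⟨p, hp, rfl⟩ := Finset.mem_image.1 hz
          exact (Finset.mem_filter.1 hp).2
        · intro z hz
          obtain ⟨p, hp, rfl⟩ := Finset.mem_image.1 (hB1 hz)
          exact Finset.mem_image.2 ⟨p, Finset.mem_filter.2 ⟨hp, hz⟩, rfl⟩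
      refine (hcon _ (Finset.filter_subset _ _) hcard).trans_le ?_
      gcongr
      exact min_le_left _ _
  rw [h3, Finset.card_powersetCard, hD] at h2
  have h4 : 0 < X.card.choose N := Nat.choose_pos hNX
  have h5 : 2 ^ 1 ≤ 2 ^ N := Nat.pow_le_pow_right (by norm_num) hN0
  nlinarith

/-- a projection is injective on a given set for one of many slopes -/
theorem exists_inj (A : Finset (ℤ × ℤ)) (E : Finset ℚ) (hE : A.card ^ 2 < E.card) :
    ∃ r ∈ E, (proj r A).card = A.card := by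
  by_contra hcon
  push Not at hcon
  have h1 : E ⊆ (A ×ˢ A).image (fun q : (ℤ × ℤ) × (ℤ × ℤ) =>
      -((q.1.1 : ℚ) - q.2.1) / ((q.1.2 : ℚ) - q.2.2)) := by
    intro r hr
    have h2 : ¬ Set.InjOn (fun p : ℤ × ℤ => (p.1 : ℚ) + r * (p.2 : ℚ)) (A : Set (ℤ × ℤ)) :=
      fun h => hcon r hr (Finset.card_image_of_injOn h)
    unfold Set.InjOn at h2
    push Not at h2
    obtain ⟨p, hp, q, hq, hpq, hne⟩ := h2
    rw [Finset.mem_image]
    refine ⟨(p, q), Finset.mem_product.2 ⟨by exact_mod_cast hp, by exact_mod_cast hq⟩, ?_⟩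
    simp only at hpq ⊢
    have h3 : (p.2 : ℚ) - q.2 ≠ 0 := by
      intro h4
      apply hne
      have h5 : (p.2 : ℚ) = q.2 := by linarith
      have h6 : (p.1 : ℚ) = q.1 := by rw [h5] at hpq; linarith
      exact Prod.ext (by exact_mod_cast h6) (by exact_mod_cast h5)
    rw [div_eq_iff h3]
    linarith
  have h2 := (Finset.card_le_card h1).trans Finset.card_image_le
  rw [Finset.card_product] at h2
  rw [sq] at hE
  omega

theorem card_le_sq {S : Finset ℚ} (hS : (0 : ℚ) ∈ S) (A : Finset (ℤ × ℤ)) :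
    A.card ≤ big S A ^ 2 := by
  have h1 : (projInf A).card ≤ big S A := le_max_left _ _
  have h2 : (proj 0 A).card ≤ big S A :=
    (Finset.le_sup (f := fun r => (proj r A).card) hS).trans (le_max_right _ _)
  have h3 : A.card ≤ (proj 0 A ×ˢ projInf A).card := by
    apply Finset.card_le_card_of_injOn
      (fun p : ℤ × ℤ => (((p.1 : ℚ) + 0 * (p.2 : ℚ)), (p.2 : ℚ)))
    · intro p hp
      exact Finset.mem_coe.2 (Finset.mem_product.2 ⟨Finset.mem_image_of_mem
        (fun p : ℤ × ℤ => (p.1 : ℚ) + 0 * (p.2 : ℚ)) hp,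
        Finset.mem_image_of_mem (fun p : ℤ × ℤ => (p.2 : ℚ)) hp⟩)
    · intro p _ q _ hpq
      simp only [zero_mul, add_zero, Prod.mk.injEq, Int.cast_inj] at hpq
      exact Prod.ext hpq.1 hpq.2
  rw [Finset.card_product] at h3
  calc A.card ≤ _ := h3
    _ ≤ big S A * big S A := Nat.mul_le_mul h2 h1
    _ = _ := by ring

theorem WeakForm.conjecture (h : WeakForm) : Conjecture := by
  intro e he
  -- the parameters
  set ε : ℝ := e / (2 * (1 + e)) with hε
  have hε0 : 0 < ε := by positivity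
  have hε1 : ε < 1 := by
    rw [hε, div_lt_one (by positivity)]
    linarith
  have h1ε : 0 < 1 - ε := by linarith
  set ρ : ℝ := 1 / (1 - ε) with hρ
  have hρ0 : 0 < ρ := by positivity
  have hρe : ρ < 1 + e := by
    rw [hρ, div_lt_iff₀ h1ε, hε]
    have h2 : (1 + e) * (1 - e / (2 * (1 + e))) = 1 + e / 2 := by field_simp; ring
    rw [h2]
    linarith
  obtain ⟨S, hS, δ, hδ0, hδ1, hw⟩ := h ε hε0 hε1
  set C1 : ℝ := (2 / δ ^ 2) ^ ρ with hC1
  have hC10 : 0 < C1 := by positivity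
  obtain ⟨M0, hM0⟩ : ∃ M0 : ℕ, C1 ≤ (M0 : ℝ) ^ (1 + e - ρ) := by
    have h3 : Filter.Tendsto (fun m : ℕ => (m : ℝ) ^ (1 + e - ρ)) Filter.atTop Filter.atTop :=
      (tendsto_rpow_atTop (by linarith)).comp tendsto_natCast_atTop_atTop
    obtain ⟨m, hm⟩ := (Filter.tendsto_atTop.1 h3 C1).exists
    exact ⟨m, hm⟩
  set E : Finset ℚ := (Finset.range (M0 ^ 4 + 1)).image (fun i : ℕ => (i : ℚ) + 1) with hE
  have hEcard : E.card = M0 ^ 4 + 1 := by
    rw [hE, Finset.card_image_of_injective, Finset.card_range]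
    intro i j hij
    simp only [add_left_inj, Nat.cast_inj] at hij
    exact hij
  refine ⟨insert 0 (S ∪ E), ?_, fun A => ?_⟩
  · intro hmem
    rw [Finset.mem_insert, Finset.mem_union] at hmem
    rcases hmem with h3 | h3 | h3
    · norm_num at h3
    · exact hS h3
    · rw [hE, Finset.mem_image] at h3
      obtain ⟨i, _, hi⟩ := h3
      have : (0 : ℚ) ≤ (i : ℚ) := by positivity
      linarith
  set S' := insert 0 (S ∪ E) with hS'
  rw [card_diffs]
  rcases A.eq_empty_or_nonempty with rfl | hA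
  · simp only [diffs, Finset.image_empty, Finset.card_empty, Nat.cast_zero]
    positivity
  set M := big S' A with hM
  have hM1 : 1 ≤ M := one_le_big hA
  have hM1r : (1 : ℝ) ≤ M := by exact_mod_cast hM1
  rcases lt_or_ge M M0 with hlt | hge
  · -- few points: an injective slope
    have h3 : A.card ≤ M ^ 2 := card_le_sq (by rw [hS']; exact Finset.mem_insert_self _ _) A
    have h4 : A.card ^ 2 < E.card := by
      rw [hEcard]
      calc A.card ^ 2 ≤ (M ^ 2) ^ 2 := Nat.pow_le_pow_left h3 2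
        _ = M ^ 4 := by ring
        _ ≤ M0 ^ 4 := Nat.pow_le_pow_left hlt.le 4
        _ < _ := Nat.lt_succ_self _
    obtain ⟨r, hr, hrA⟩ := exists_inj A E h4
    have h5 : A.card ≤ M := by
      rw [← hrA]
      refine (Finset.le_sup (f := fun r => (proj r A).card) ?_).trans (le_max_right _ _)
      rw [hS']
      exact Finset.mem_insert_of_mem (Finset.mem_union_right _ hr)
    have h6 : (diffs A).card ≤ M := Finset.card_image_le.trans h5
    calc ((diffs A).card : ℝ) ≤ M := by exact_mod_cast h6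
      _ = (M : ℝ) ^ (1 : ℝ) := (Real.rpow_one _).symm
      _ ≤ (M : ℝ) ^ (1 + e) := Real.rpow_le_rpow_of_exponent_le hM1r (by linarith)
  · -- many points
    obtain ⟨s, hs, hb⟩ := Set.exists_subset_bijOn (A : Set (ℤ × ℤ)) (fun p : ℤ × ℤ => p.1 - p.2)
    have hfin : s.Finite := A.finite_toSet.subset hs
    set X : Finset (ℤ × ℤ) := hfin.toFinset with hX
    have hXs : (X : Set (ℤ × ℤ)) = s := by simp [hX]
    have hXA : X ⊆ A := by
      intro p hp
      have : p ∈ s := by rw [← hXs]; exact_mod_cast hp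
      exact_mod_cast hs this
    have hinj : Set.InjOn (fun p : ℤ × ℤ => p.1 - p.2) (X : Set (ℤ × ℤ)) := by
      rw [hXs]; exact hb.injOn
    have hdX : diffs X = diffs A := by
      unfold diffs
      apply Finset.coe_injective
      rw [Finset.coe_image, Finset.coe_image, hXs]
      exact hb.image_eq
    have hcX : (diffs A).card = X.card := by
      rw [← hdX]
      exact Finset.card_image_of_injOn hinj
    rw [hcX]
    set n := X.card with hn
    have hMS : big S A ≤ M := by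
      rw [hM]
      apply big_mono_left
      intro r hr
      rw [hS']
      exact Finset.mem_insert_of_mem (Finset.mem_union_left _ hr)
    have hkey : (n : ℝ) ^ (1 - ε) ≤ 2 / δ ^ 2 * M := by
      have hq : 0 ≤ (n : ℝ) ^ (1 - ε) := by positivity
      set N : ℕ := ⌊δ * (n : ℝ) ^ (1 - ε)⌋₊ with hN
      have hN1 : δ * (n : ℝ) ^ (1 - ε) < N + 1 := Nat.lt_floor_add_one _
      have hN2 : (N : ℝ) ≤ δ * (n : ℝ) ^ (1 - ε) := Nat.floor_le (by positivity)
      have hMN : δ * N ≤ M := by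
        rcases Nat.eq_zero_or_pos N with h3 | h3
        · rw [h3]; simp
        · obtain ⟨A', hA', _, hbig⟩ := hw X hinj N h3 hN2
          refine hbig.trans ?_
          exact_mod_cast (big_mono (hA'.trans hXA)).trans hMS
      have h3 : δ ^ 2 * (n : ℝ) ^ (1 - ε) ≤ 2 * M := by
        have h4 : δ * (δ * (n : ℝ) ^ (1 - ε)) ≤ δ * (N + 1) := by
          apply mul_le_mul_of_nonneg_left hN1.le hδ0.le
        nlinarith
      rw [div_mul_eq_mul_div, le_div_iff₀ (by positivity)]
      linarith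
    have hn1 : (n : ℝ) ≤ C1 * (M : ℝ) ^ ρ := by
      have h3 : ((n : ℝ) ^ (1 - ε)) ^ ρ = n := by
        rw [← Real.rpow_mul (by positivity), hρ, mul_one_div_cancel h1ε.ne', Real.rpow_one]
      calc (n : ℝ) = ((n : ℝ) ^ (1 - ε)) ^ ρ := h3.symm
        _ ≤ (2 / δ ^ 2 * M) ^ ρ := Real.rpow_le_rpow (by positivity) hkey hρ0.le
        _ = C1 * (M : ℝ) ^ ρ := by rw [Real.mul_rpow (by positivity) (by positivity)]
    calc (n : ℝ) ≤ C1 * (M : ℝ) ^ ρ := hn1
      _ ≤ (M0 : ℝ) ^ (1 + e - ρ) * (M : ℝ) ^ ρ := by gcongr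
      _ ≤ (M : ℝ) ^ (1 + e - ρ) * (M : ℝ) ^ ρ := by
          gcongr
      _ = (M : ℝ) ^ (1 + e) := by
          rw [← Real.rpow_add (by linarith)]
          congr 1
          ring

theorem Conjecture.subForm (h : Conjecture) : SubForm := by
  intro ε hε0 hε1
  have h1ε : 0 < 1 - ε := by linarith
  set κ : ℝ := 1 / (1 - ε) with hκ
  have hκ1 : 1 < κ := by
    rw [hκ, lt_div_iff₀ h1ε]
    linarith
  obtain ⟨S, hS, hB⟩ := h (κ - 1) (by linarith)
  have hB' : Bound S κ := by
    have : 1 + (κ - 1) = κ := by ring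
    rw [this] at hB
    exact hB
  set δ : ℝ := min (1 / (2 * ((S.card : ℝ) + 1))) (1 / 16) with hδ
  refine ⟨S, hS, δ, lt_min (by positivity) (by norm_num), fun X hX N hN => ?_⟩
  have h1 : 1 / κ = 1 - ε := by rw [hκ, one_div_one_div]
  have h2 := rand_sub hκ1.le hB' X hX N (by
    rw [h1]
    refine hN.trans ?_
    gcongr
    exact min_le_right _ _)
  refine le_trans (Nat.mul_le_mul_left _ (Finset.card_le_card ?_)) h2
  intro A hA
  rw [Finset.mem_filter] at hA ⊢
  refine ⟨hA.1, hA.2.trans_le ?_⟩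
  gcongr
  exact min_le_left _ _

theorem Conjecture.liftForm (h : Conjecture) : LiftForm := by
  intro C ε hε0 hε1
  have h1ε : 0 < 1 - ε / 2 := by linarith
  set κ : ℝ := 1 / (1 - ε / 2) with hκ
  have hκ1 : 1 < κ := by
    rw [hκ, lt_div_iff₀ h1ε]
    linarith
  obtain ⟨S, hS, hB⟩ := h (κ - 1) (by linarith)
  have hB' : Bound S κ := by
    have : 1 + (κ - 1) = κ := by ring
    rw [this] at hB
    exact hB
  obtain ⟨δ, hδ, h1⟩ := rand_lift hκ1.le hB' C (ε / 2) (by linarith) (by linarith)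
  refine ⟨S, hS, δ, hδ, fun D X hXD N hN => h1 D X hXD N (hN.trans ?_)⟩
  have h2 : (1 - ε / 2) / κ = (1 - ε / 2) * (1 - ε / 2) := by
    rw [hκ, div_div_eq_mul_div, div_one]
  rw [h2]
  rcases Nat.eq_zero_or_pos D.card with h3 | h3
  · rw [h3, Nat.cast_zero, Real.zero_rpow (by linarith)]
    positivity
  · apply Real.rpow_le_rpow_of_exponent_le (by exact_mod_cast h3)
    nlinarith [sq_nonneg ε]

theorem equivalences : (Conjecture ↔ SubForm) ∧ (Conjecture ↔ LiftForm) :=
  ⟨⟨Conjecture.subForm, fun h => h.weak.conjecture⟩,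
   ⟨Conjecture.liftForm, fun h => h.weak.conjecture⟩⟩

end Pool.Agent.R535.AK
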