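import Pool.Agent.R535.AK.Abs
import Pool.Agent.R516.AKP

/-!
# Progressions whose common differences form a random set
-/

set_option autoImplicit false

namespace Pool.Agent.R535.AK

open Pool.Agent.W46.KK (SD)

/-- `B` contains a `k`-term progression with every common difference in `R`. -/
def HasProg {n : ℕ} (k : ℕ) (R B : Set (EuclideanSpace ℝ (Fin n))) : Prop :=
  ∀ r ∈ R, ∃ a : EuclideanSpace ℝ (Fin n), ∀ j : ℕ, j < k → a + (j : ℝ) • r ∈ B

/-- the points of `V` are `δ`-separated in the maximum norm -/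
def Separated {n : ℕ} (δ : ℝ) (V : Finset (EuclideanSpace ℝ (Fin n))) : Prop :=
  ∀ v ∈ V, ∀ w ∈ V, v ≠ w → ∃ i, δ ≤ |v i - w i|

/-- `B` is covered by `m` sets of diameter at most `δ` -/
def CoveredBy {n : ℕ} (δ : ℝ) (m : ℕ) (B : Set (EuclideanSpace ℝ (Fin n))) : Prop :=
  ∃ U : Fin m → Set (EuclideanSpace ℝ (Fin n)),
    (∀ i, ∀ x ∈ U i, ∀ y ∈ U i, dist x y ≤ δ) ∧ B ⊆ ⋃ i, U i

section

variable {n : ℕ}

theorem coord_le_dist (x y : EuclideanSpace ℝ (Fin n)) (i : Fin n) : |x i - y i| ≤ dist x y := by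
  rw [EuclideanSpace.dist_eq, ← Real.sqrt_sq_eq_abs]
  apply Real.sqrt_le_sqrt
  have h1 := Finset.single_le_sum (f := fun i => dist (x i) (y i) ^ 2)
    (fun i _ => sq_nonneg (dist (x i) (y i))) (Finset.mem_univ i)
  simp only [Real.dist_eq, sq_abs] at h1 ⊢
  exact h1

theorem dist_le_of_coord (x y : EuclideanSpace ℝ (Fin n)) (h : ℝ) (hh : 0 ≤ h)
    (H : ∀ i, |x i - y i| ≤ h) : dist x y ≤ ((n : ℝ) + 1) * h := by
  rw [EuclideanSpace.dist_eq]
  apply Real.sqrt_le_iff.2
  refine ⟨by positivity, ?_⟩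
  calc ∑ i, dist (x i) (y i) ^ 2 ≤ ∑ _i : Fin n, h ^ 2 := by
        apply Finset.sum_le_sum
        intro i _
        rw [Real.dist_eq]
        exact pow_le_pow_left₀ (abs_nonneg _) (H i) 2
    _ = n * h ^ 2 := by simp
    _ ≤ (((n : ℝ) + 1) * h) ^ 2 := by
        have : (0 : ℝ) ≤ n := by positivity
        nlinarith [sq_nonneg h, mul_nonneg this (sq_nonneg h), mul_nonneg (mul_nonneg this this)
          (sq_nonneg h)]

/-- the cell of `h z + j r` -/
noncomputable def cell (h : ℝ) (j : ℕ) (p : (Fin n → ℤ) × EuclideanSpace ℝ (Fin n)) : Fin n → ℤ :=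
  fun i => p.1 i + ⌊(j : ℝ) * p.2 i / h⌋

/-- the vector `h z` -/
noncomputable def pt (h : ℝ) (z : Fin n → ℤ) : EuclideanSpace ℝ (Fin n) :=
  WithLp.toLp 2 fun i => h * z i

@[simp] theorem pt_apply (h : ℝ) (z : Fin n → ℤ) (i : Fin n) : pt h z i = h * z i := rfl

theorem cell_le {h : ℝ} (hh : 0 < h) (j : ℕ) (z : Fin n → ℤ) (r : EuclideanSpace ℝ (Fin n))
    (i : Fin n) : h * cell h j (z, r) i ≤ (pt h z + (j : ℝ) • r) i ∧
      (pt h z + (j : ℝ) • r) i < h * cell h j (z, r) i + h := by
  have h1 : (⌊(j : ℝ) * r i / h⌋ : ℝ) ≤ (j : ℝ) * r i / h := Int.floor_le _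
  have h2 : (j : ℝ) * r i / h < ⌊(j : ℝ) * r i / h⌋ + 1 := Int.lt_floor_add_one _
  rw [le_div_iff₀ hh] at h1
  rw [div_lt_iff₀ hh] at h2
  simp only [cell, PiLp.add_apply, PiLp.smul_apply, smul_eq_mul, pt_apply]
  push_cast
  constructor <;> nlinarith

end

open Classical in
theorem rand_prog {κ : ℝ} (hκ : 1 ≤ κ) (hSD : SD κ) : ∃ k : ℕ, ∀ n : ℕ, ∀ C η : ℝ, 0 < η → η < 1 →
    ∃ c : ℝ, 0 < c ∧ ∀ δ H : ℝ, 0 < δ → 0 < H → ∀ V : Finset (EuclideanSpace ℝ (Fin n)),
      Separated δ V → H / δ ≤ (V.card : ℝ) ^ C → ∀ N : ℕ, (N : ℝ) ≤ (V.card : ℝ) ^ ((1 - η) / κ) →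
      2 ^ N * ((V.powersetCard N).filter (fun V' : Finset (EuclideanSpace ℝ (Fin n)) => ∃ B : Set (EuclideanSpace ℝ (Fin n)),
        (∀ x ∈ B, ∀ y ∈ B, dist x y ≤ H) ∧ HasProg k (V' : Set (EuclideanSpace ℝ (Fin n))) B ∧
        ∃ m : ℕ, CoveredBy δ m B ∧ (m : ℝ) < c * N)).card ≤ V.card.choose N := by
  obtain ⟨k₀, hk₀, -⟩ := Pool.Agent.R516.AKP.all hSD (by linarith)
  refine ⟨k₀ + 1, fun n C η hη0 hη1 => ?_⟩
  obtain ⟨D, hD1, hD⟩ := hk₀ n
  have hκ0 : 0 < κ := by linarith
  set E : ℝ := D * (k₀ + 1) with hE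
  have hE1 : 1 ≤ E := by
    have : (0 : ℝ) ≤ k₀ := by positivity
    nlinarith
  set C₂ : ℝ := (n : ℝ) * (max C 0 + (2 * n + 7)) + 1 with hC₂
  obtain ⟨δ₀, hδ₀, hδ₁, hmain⟩ := abs_lift κ hκ (k₀ + 1) E hE1 C₂ η hη0 hη1
  set P : ℝ := ((2 * n + 5 : ℕ) : ℝ) ^ n with hP
  have hP1 : 1 ≤ P := one_le_pow₀ (by exact_mod_cast (by omega : 1 ≤ 2 * n + 5))
  set c : ℝ := δ₀ / (2 * P) with hc
  have hc0 : 0 < c := by positivity
  have hc1 : c ≤ 1 / 2 := by
    rw [hc, div_le_div_iff₀ (by positivity) (by norm_num)]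
    nlinarith
  refine ⟨c, hc0, fun δ H hδ hH V hV hHδ N hN => ?_⟩
  set Q := (V.powersetCard N).filter (fun V' : Finset (EuclideanSpace ℝ (Fin n)) => ∃ B : Set (EuclideanSpace ℝ (Fin n)),
        (∀ x ∈ B, ∀ y ∈ B, dist x y ≤ H) ∧ HasProg (k₀ + 1) (V' : Set (EuclideanSpace ℝ (Fin n))) B ∧
        ∃ m : ℕ, CoveredBy δ m B ∧ (m : ℝ) < c * N) with hQ
  -- small `N`
  by_cases hsmall : c * N ≤ 1
  · have : Q = ∅ := by
      rw [hQ]
      apply Finset.filter_eq_empty_iff.2
      rintro V' hV' ⟨B, _, hBP, m, ⟨U, _, hU⟩, hm⟩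
      have h1 : (m : ℝ) < 1 := lt_of_lt_of_le hm hsmall
      have h2 : m = 0 := by
        have : m < 1 := by exact_mod_cast h1
        omega
      subst h2
      have h3 : B = ∅ := by
        rw [Set.eq_empty_iff_forall_notMem]
        intro x hx
        obtain ⟨i, _⟩ := Set.mem_iUnion.1 (hU hx)
        exact i.elim0
      have h4 : V' = ∅ := by
        rw [Finset.eq_empty_iff_forall_notMem]
        intro r hr
        obtain ⟨a, ha⟩ := hBP r (by exact_mod_cast hr)
        have := ha 0 (by omega)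
        rw [h3] at this
        exact this
      rw [Finset.mem_powersetCard, h4] at hV'
      have h5 : N = 0 := by simpa using hV'.2.symm
      rw [h5] at hm
      simp at hm
    rw [this]
    simp
  push Not at hsmall
  have hN2 : (2 : ℝ) < N := by
    by_contra hcon
    push Not at hcon
    have h6 : c * N ≤ 1 / 2 * 2 := by
      apply mul_le_mul hc1 hcon (by positivity) (by norm_num)
    linarith
  have hexp : 0 < (1 - η) / κ := div_pos (by linarith) hκ0
  have hV0 : 0 < V.card := by
    rcases Nat.eq_zero_or_pos V.card with h | h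
    · rw [h, Nat.cast_zero, Real.zero_rpow hexp.ne'] at hN
      linarith
    · exact h
  have hV1 : (1 : ℝ) ≤ V.card := by exact_mod_cast hV0
  have hV2 : (2 : ℝ) ≤ V.card := by
    have h1 : (V.card : ℝ) ^ ((1 - η) / κ) ≤ V.card := by
      calc (V.card : ℝ) ^ ((1 - η) / κ) ≤ (V.card : ℝ) ^ (1 : ℝ) := by
            apply Real.rpow_le_rpow_of_exponent_le hV1
            rw [div_le_one hκ0]
            linarith
        _ = V.card := Real.rpow_one _
    linarith
  set h : ℝ := δ / ((n : ℝ) + 1) with hh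
  have hn1 : (0 : ℝ) < (n : ℝ) + 1 := by positivity
  have hh0 : 0 < h := by positivity
  have hhδ : ((n : ℝ) + 1) * h = δ := by rw [hh]; field_simp
  set L : ℤ := ⌈H / h⌉ + 1 with hL
  have hL0 : 0 ≤ L := by
    have : 0 ≤ ⌈H / h⌉ := Int.ceil_nonneg (by positivity)
    omega
  set box : Finset (Fin n → ℤ) := Fintype.piFinset fun _ => Finset.Icc (-L) L with hbox
  set X : Finset ((Fin n → ℤ) × EuclideanSpace ℝ (Fin n)) := box ×ˢ V with hX
  have hbox_card : (box.card : ℝ) = (2 * L + 1 : ℝ) ^ n := by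
    have h1 : box.card = (2 * L + 1).toNat ^ n := by
      rw [hbox, Fintype.card_piFinset]
      simp only [Int.card_Icc, Finset.prod_const, Finset.card_univ, Fintype.card_fin]
      congr 2
      ring
    rw [h1]
    push_cast
    congr 1
    have h2 : (((2 * L + 1).toNat : ℤ) : ℝ) = ((2 * L + 1 : ℤ) : ℝ) := by
      rw [Int.toNat_of_nonneg (by omega)]
    push_cast at h2
    exact h2
  -- the size of `X`
  have hXV : (X.card : ℝ) ≤ (V.card : ℝ) ^ C₂ := by
    set v : ℝ := (V.card : ℝ) with hv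
    have hv0 : 0 < v := by linarith
    have h1 : (2 * L + 1 : ℝ) ≤ v ^ (max C 0 + (2 * n + 7)) := by
      have h2 : (L : ℝ) ≤ H / h + 2 := by
        rw [hL]
        push_cast
        have := Int.ceil_lt_add_one (H / h)
        linarith
      have h3 : H / h = ((n : ℝ) + 1) * (H / δ) := by rw [hh]; field_simp
      have h4 : H / δ ≤ v ^ (max C 0) :=
        hHδ.trans (Real.rpow_le_rpow_of_exponent_le hV1 (le_max_left _ _))
      have h5 : 1 ≤ v ^ (max C 0) := Real.one_le_rpow hV1 (le_max_right _ _)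
      have h6 : (2 * n + 7 : ℝ) ≤ v ^ (2 * n + 7 : ℝ) := by
        have h7 : ((2 * n + 7 : ℕ) : ℝ) ≤ (2 : ℝ) ^ (2 * n + 7) := by
          exact_mod_cast (Nat.lt_two_pow_self).le
        calc (2 * n + 7 : ℝ) = ((2 * n + 7 : ℕ) : ℝ) := by push_cast; ring
          _ ≤ (2 : ℝ) ^ (2 * n + 7) := h7
          _ ≤ v ^ (2 * n + 7) := pow_le_pow_left₀ (by norm_num) hV2 _
          _ = v ^ (2 * n + 7 : ℝ) := by
              rw [← Real.rpow_natCast]
              push_cast
              rfl
      calc (2 * L + 1 : ℝ) ≤ 2 * (((n : ℝ) + 1) * v ^ (max C 0) + 2) + 1 := by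
            rw [h3] at h2
            have : ((n : ℝ) + 1) * (H / δ) ≤ ((n : ℝ) + 1) * v ^ (max C 0) := by gcongr
            linarith
        _ ≤ (2 * n + 7) * v ^ (max C 0) := by nlinarith
        _ ≤ v ^ (2 * n + 7 : ℝ) * v ^ (max C 0) := by gcongr
        _ = v ^ (max C 0 + (2 * n + 7)) := by
            rw [← Real.rpow_add hv0]
            congr 1
            ring
    have h2 : (X.card : ℝ) = (2 * L + 1 : ℝ) ^ n * v := by
      rw [hX, Finset.card_product]
      push_cast
      rw [hbox_card]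
    rw [h2]
    have hL0' : (0 : ℝ) ≤ L := by exact_mod_cast hL0
    calc (2 * L + 1 : ℝ) ^ n * v ≤ (v ^ (max C 0 + (2 * n + 7))) ^ n * v := by
          gcongr
      _ = v ^ C₂ := by
          rw [← Real.rpow_natCast, ← Real.rpow_mul hv0.le, hC₂, Real.rpow_add hv0, Real.rpow_one]
          congr 2
          ring
  apply hmain _ _ _ _ (Finset.range (k₀ + 1)) (fun j p => cell h j p) Prod.snd X V (by simp) ?_ hXV
    N hN Q ?_
  · -- sets with few cells have few common differences
    intro A hA M hM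
    have hsep : ∀ v ∈ A.image Prod.snd, ∀ w ∈ A.image Prod.snd, v ≠ w → ∃ i, δ ≤ |v i - w i| := by
      intro v hv w hw
      obtain ⟨p, hp, rfl⟩ := Finset.mem_image.1 hv
      obtain ⟨q, hq, rfl⟩ := Finset.mem_image.1 hw
      exact hV _ (Finset.mem_product.1 (hA hp)).2 _ (Finset.mem_product.1 (hA hq)).2
    set idx : Finset (Σ _ : ℕ, (Fin n → ℤ)) :=
      (Finset.range (k₀ + 1)).sigma (fun j => A.image (fun p => cell h j p)) with hidx
    have h1 := hD ((A.image Prod.snd : Finset (EuclideanSpace ℝ (Fin n))) : Set _)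
      {b | ∃ p ∈ A, ∃ j < k₀ + 1, b = pt h p.1 + (j : ℝ) • p.2}
      (by
        intro r hr
        obtain ⟨p, hp, rfl⟩ := Finset.mem_image.1 (by exact_mod_cast hr)
        exact ⟨pt h p.1, fun j hj => ⟨p, hp, j, by omega, rfl⟩⟩)
      δ hδ (A.image Prod.snd) (fun v hv => by exact_mod_cast hv) hsep
      {x // x ∈ idx}
      (fun x => {b | ∀ i, h * x.1.2 i ≤ b i ∧ b i < h * x.1.2 i + h})
      (by
        intro s x hx y hy
        rw [← hhδ]
        apply dist_le_of_coord _ _ _ hh0.le
        intro i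
        have h2 := hx i
        have h3 := hy i
        rw [abs_le]
        constructor <;> linarith [h2.1, h2.2, h3.1, h3.2])
      (by
        rintro b ⟨p, hp, j, hj, rfl⟩
        rw [Set.mem_iUnion]
        refine ⟨⟨⟨j, cell h j p⟩, ?_⟩, fun i => cell_le hh0 j p.1 p.2 i⟩
        rw [hidx, Finset.mem_sigma]
        exact ⟨Finset.mem_range.2 hj, Finset.mem_image_of_mem _ hp⟩)
    refine h1.trans ?_
    apply Real.rpow_le_rpow (by positivity) _ hκ0.le
    rw [Fintype.card_coe, hidx, Finset.card_sigma]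
    have h2 : (∑ j ∈ Finset.range (k₀ + 1), (A.image (fun p => cell h j p)).card) ≤ (k₀ + 1) * M := by
      calc _ ≤ ∑ _j ∈ Finset.range (k₀ + 1), M := Finset.sum_le_sum hM
        _ = _ := by simp
    calc D * ((∑ j ∈ Finset.range (k₀ + 1), (A.image (fun p => cell h j p)).card : ℕ) : ℝ)
        ≤ D * (((k₀ + 1) * M : ℕ) : ℝ) := by
          gcongr
      _ = E * M := by rw [hE]; push_cast; ring
  · -- the bad sets
    intro V' hV'
    rw [hQ, Finset.mem_filter] at hV'
    obtain ⟨hV1', B, hBH, hBP, m, ⟨U, hU1, hU2⟩, hm⟩ := hV'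
    refine ⟨hV1', ?_⟩
    rw [Finset.mem_powersetCard] at hV1'
    choose! a ha using hBP
    have hne : V'.Nonempty := by
      rw [← Finset.card_pos, hV1'.2]
      have : (0 : ℝ) < N := by linarith
      exact_mod_cast this
    obtain ⟨r₀, hr₀⟩ := hne
    set b₀ : EuclideanSpace ℝ (Fin n) := a r₀ with hb₀
    have haB : ∀ r ∈ V', a r ∈ B := by
      intro r hr
      have := ha r (by exact_mod_cast hr) 0 (by omega)
      simpa using this
    set z : EuclideanSpace ℝ (Fin n) → (Fin n → ℤ) := fun r i => ⌊(a r i - b₀ i) / h⌋ with hz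
    have hz1 : ∀ r i, h * z r i ≤ a r i - b₀ i ∧ a r i - b₀ i < h * z r i + h := by
      intro r i
      have h1 : (⌊(a r i - b₀ i) / h⌋ : ℝ) ≤ (a r i - b₀ i) / h := Int.floor_le _
      have h2 : (a r i - b₀ i) / h < ⌊(a r i - b₀ i) / h⌋ + 1 := Int.lt_floor_add_one _
      rw [le_div_iff₀ hh0] at h1
      rw [div_lt_iff₀ hh0] at h2
      simp only [hz]
      constructor <;> linarith
    have hz2 : ∀ r ∈ V', z r ∈ box := by
      intro r hr
      rw [hbox, Fintype.mem_piFinset]
      intro i
      rw [Finset.mem_Icc]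
      have h1 : |a r i - b₀ i| ≤ H :=
        (coord_le_dist _ _ i).trans (hBH _ (haB r hr) _ (haB r₀ hr₀))
      rw [abs_le] at h1
      obtain ⟨h2, h3⟩ := hz1 r i
      have h4 : H / h ≤ ⌈H / h⌉ := Int.le_ceil _
      rw [div_le_iff₀ hh0] at h4
      constructor
      · have h5 : (-(L : ℝ)) ≤ z r i := by
          rw [hL]
          push_cast
          by_contra hcon
          push Not at hcon
          nlinarith
        exact_mod_cast h5
      · have h5 : (z r i : ℝ) ≤ L := by
          rw [hL]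
          push_cast
          by_contra hcon
          push Not at hcon
          nlinarith
        exact_mod_cast h5
    refine ⟨V'.image (fun r => (z r, r)), ?_, ?_, ?_⟩
    · intro p hp
      obtain ⟨r, hr, rfl⟩ := Finset.mem_image.1 hp
      exact Finset.mem_product.2 ⟨hz2 r hr, hV1'.1 hr⟩
    · intro r hr
      exact Finset.mem_image.2 ⟨(z r, r), Finset.mem_image_of_mem _ hr, rfl⟩
    · intro j hj
      rw [Finset.mem_range] at hj
      rw [Finset.image_image]
      -- the index of the set which contains the `j`-th point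
      have hu : ∀ r ∈ V', ∃ u : Fin m, a r + (j : ℝ) • r ∈ U u := by
        intro r hr
        exact Set.mem_iUnion.1 (hU2 (ha r (by exact_mod_cast hr) j hj))
      have hcov : V'.image ((fun p => cell h j p) ∘ fun r => (z r, r)) ⊆
          (Finset.univ : Finset (Fin m)).biUnion fun u =>
            (V'.filter (fun r => a r + (j : ℝ) • r ∈ U u)).image
              (fun r => cell h j (z r, r)) := by
        intro g hg
        obtain ⟨r, hr, rfl⟩ := Finset.mem_image.1 hg
        obtain ⟨u, hu'⟩ := hu r hr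
        rw [Finset.mem_biUnion]
        exact ⟨u, Finset.mem_univ _, Finset.mem_image.2 ⟨r, Finset.mem_filter.2 ⟨hr, hu'⟩, rfl⟩⟩
      have hone : ∀ u : Fin m, ((V'.filter (fun r => a r + (j : ℝ) • r ∈ U u)).image
          (fun r => cell h j (z r, r))).card ≤ (2 * n + 5) ^ n := by
        intro u
        rcases (V'.filter (fun r => a r + (j : ℝ) • r ∈ U u)).eq_empty_or_nonempty with h0 | ⟨r₁, hr₁⟩
        · rw [h0]
          simp
        · have hsub : (V'.filter (fun r => a r + (j : ℝ) • r ∈ U u)).image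
              (fun r => cell h j (z r, r)) ⊆ Fintype.piFinset fun i =>
                Finset.Icc (cell h j (z r₁, r₁) i - (n + 2)) (cell h j (z r₁, r₁) i + (n + 2)) := by
            intro g hg
            obtain ⟨r, hr, rfl⟩ := Finset.mem_image.1 hg
            rw [Fintype.mem_piFinset]
            intro i
            have h1 := hU1 u _ (Finset.mem_filter.1 hr).2 _ (Finset.mem_filter.1 hr₁).2
            have h2 := (coord_le_dist _ _ i).trans h1
            simp only [PiLp.add_apply, PiLp.smul_apply, smul_eq_mul] at h2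
            rw [abs_le] at h2
            have h3 := cell_le hh0 j (z r) r i
            have h4 := cell_le hh0 j (z r₁) r₁ i
            simp only [PiLp.add_apply, PiLp.smul_apply, smul_eq_mul, pt_apply] at h3 h4
            have h5 := hz1 r i
            have h6 := hz1 r₁ i
            rw [← hhδ] at h2
            rw [Finset.mem_Icc]
            constructor
            · have h7 : ((cell h j (z r₁, r₁) i : ℤ) : ℝ) - (n + 3) < cell h j (z r, r) i := by
                by_contra hcon
                push Not at hcon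
                nlinarith
              have h8 : cell h j (z r₁, r₁) i - (n + 3) < cell h j (z r, r) i := by
                exact_mod_cast h7
              omega
            · have h7 : ((cell h j (z r, r) i : ℤ) : ℝ) < cell h j (z r₁, r₁) i + (n + 3) := by
                by_contra hcon
                push Not at hcon
                nlinarith
              have h8 : cell h j (z r, r) i < cell h j (z r₁, r₁) i + (n + 3) := by
                exact_mod_cast h7
              omega
          refine (Finset.card_le_card hsub).trans ?_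
          rw [Fintype.card_piFinset]
          apply le_of_eq
          simp only [Int.card_Icc]
          have h9 : ∀ i : Fin n, (cell h j (z r₁, r₁) i + ((n : ℤ) + 2) + 1 -
              (cell h j (z r₁, r₁) i - ((n : ℤ) + 2))).toNat = 2 * n + 5 := by
            intro i
            omega
          simp [h9]
      have hcard : (V'.image ((fun p => cell h j p) ∘ fun r => (z r, r))).card ≤
          m * (2 * n + 5) ^ n := by
        refine (Finset.card_le_card hcov).trans ?_
        refine (Finset.card_biUnion_le_card_mul _ _ _ fun u _ => hone u).trans ?_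
        simp
      calc ((V'.image ((fun p => cell h j p) ∘ fun r => (z r, r))).card : ℝ)
          ≤ ((m * (2 * n + 5) ^ n : ℕ) : ℝ) := by exact_mod_cast hcard
        _ = m * P := by rw [hP]; push_cast; ring
        _ < c * N * P := by gcongr
        _ = δ₀ / 2 * N := by rw [hc]; field_simp
        _ ≤ δ₀ * N := by
            have : (0 : ℝ) ≤ N := by positivity
            nlinarith

end Pool.Agent.R535.AK
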