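import Pool.Agent.R535.AK.Defs
import Pool.Agent.R535.AK.Count

/-!
# Random subsets and random sets of differences
-/

set_option autoImplicit false

namespace Pool.Agent.R535.AK

open Classical

/-- the functions whose values are counted -/
def gg : Option ℚ → ℤ × ℤ → ℚ
  | none => fun p => (p.2 : ℚ)
  | some r => fun p => (p.1 : ℚ) + r * (p.2 : ℚ)

theorem big_le_iff (S : Finset ℚ) (A : Finset (ℤ × ℤ)) (M : ℕ) :
    big S A ≤ M ↔ ∀ i ∈ Finset.insertNone S, (A.image (gg i)).card ≤ M := by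
  unfold big
  rw [max_le_iff, Finset.sup_le_iff]
  constructor
  · rintro ⟨h1, h2⟩ i hi
    rcases i with _ | r
    · exact h1
    · exact h2 r (by simpa using hi)
  · intro h
    exact ⟨h none (by simp), fun r hr => h (some r) (by simpa using hr)⟩

theorem card_insertNone' (S : Finset ℚ) : (Finset.insertNone S).card = S.card + 1 := by
  rw [Finset.card_insertNone]

theorem card_diffs (A : Finset (ℤ × ℤ)) : (proj (-1) A).card = (diffs A).card := by
  have : proj (-1) A = (diffs A).image (fun z : ℤ => (z : ℚ)) := by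
    unfold proj diffs
    rw [Finset.image_image]
    apply Finset.image_congr
    intro p _
    simp only [Function.comp]
    push_cast
    ring
  rw [this, Finset.card_image_of_injective _ Int.cast_injective]

theorem big_mono {S : Finset ℚ} {A B : Finset (ℤ × ℤ)} (h : A ⊆ B) : big S A ≤ big S B := by
  rw [big_le_iff]
  intro i hi
  have h1 := (big_le_iff S B (big S B)).1 le_rfl i hi
  exact (Finset.card_le_card (Finset.image_subset_image h)).trans h1

theorem big_mono_left {S T : Finset ℚ} {A : Finset (ℤ × ℤ)} (h : S ⊆ T) : big S A ≤ big T A :=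
  max_le_max le_rfl (Finset.sup_mono h)

theorem one_le_big {S : Finset ℚ} {A : Finset (ℤ × ℤ)} (h : A.Nonempty) : 1 ≤ big S A := by
  refine le_trans ?_ (le_max_left _ _)
  exact Finset.card_pos.2 (h.image _)

theorem big_empty (S : Finset ℚ) (A : Finset (ℤ × ℤ)) (h : big S A = 0) : A = ∅ := by
  by_contra hA
  have := one_le_big (S := S) (Finset.nonempty_iff_ne_empty.2 hA)
  omega

/-- the sets `A` in question have few differences -/
theorem diffs_le {S : Finset ℚ} {κ : ℝ} (hκ : 1 ≤ κ) (hS : Bound S κ) (M : ℕ)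
    (A : Finset (ℤ × ℤ)) (hA : ∀ i ∈ Finset.insertNone S, (A.image (gg i)).card ≤ M) :
    (diffs A).card ≤ ⌊(M : ℝ) ^ κ⌋₊ := by
  apply Nat.le_floor
  have h1 := hS A
  rw [card_diffs] at h1
  refine h1.trans ?_
  apply Real.rpow_le_rpow (by positivity) _ (by linarith)
  exact_mod_cast (big_le_iff S A M).2 hA

/-! ### Random subsets -/

theorem rand_sub {S : Finset ℚ} {κ : ℝ} (hκ : 1 ≤ κ) (hS : Bound S κ) (X : Finset (ℤ × ℤ))
    (hX : Set.InjOn (fun p : ℤ × ℤ => p.1 - p.2) (X : Set (ℤ × ℤ))) (N : ℕ)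
    (hN : (N : ℝ) ≤ 1 / 16 * (X.card : ℝ) ^ (1 / κ)) :
    2 ^ N * ((X.powersetCard N).filter
      (fun A => (big S A : ℝ) < 1 / (2 * ((S.card : ℝ) + 1)) * N)).card ≤ X.card.choose N := by
  rcases Nat.eq_zero_or_pos N with h0 | h0
  · subst h0
    have : ((X.powersetCard 0).filter
        (fun A => (big S A : ℝ) < 1 / (2 * ((S.card : ℝ) + 1)) * (0 : ℕ))) = ∅ := by
      apply Finset.filter_eq_empty_iff.2
      intro A _ h
      have : (0 : ℝ) ≤ (big S A : ℝ) := by positivity
      simp only [Nat.cast_zero, mul_zero] at h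
      linarith
    rw [this]
    simp
  have hκ0 : 0 < κ := by linarith
  set n := X.card with hn
  have hn0 : 0 < n := by
    rcases Nat.eq_zero_or_pos n with h | h
    · rw [h] at hN
      rw [Nat.cast_zero, Real.zero_rpow (by positivity)] at hN
      have : (1 : ℝ) ≤ N := by exact_mod_cast h0
      linarith
    · exact h
  have hn1 : (1 : ℝ) ≤ n := by exact_mod_cast hn0
  have hk0 : (0 : ℝ) < (S.card : ℝ) + 1 := by positivity
  set δ : ℝ := 1 / (2 * ((S.card : ℝ) + 1)) with hδ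
  have hδ0 : 0 < δ := by positivity
  have hδ1 : δ ≤ 1 / 2 := by
    rw [hδ]
    apply one_div_le_one_div_of_le (by norm_num)
    have : (0 : ℝ) ≤ (S.card : ℝ) := by positivity
    linarith
  set M : ℕ := ⌊δ * N⌋₊ with hM
  have hMle : (M : ℝ) ≤ δ * N := Nat.floor_le (by positivity)
  set F : ℕ := ⌊(M : ℝ) ^ κ⌋₊ with hF
  have hFle : (F : ℝ) ≤ (M : ℝ) ^ κ := Nat.floor_le (by positivity)
  have hpow : (1 : ℝ) ≤ (n : ℝ) ^ (1 / κ) := Real.one_le_rpow hn1 (by positivity)
  have hnκ : ((n : ℝ) ^ (1 / κ)) ^ κ = n := by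
    rw [← Real.rpow_mul (by positivity), one_div, inv_mul_cancel₀ hκ0.ne', Real.rpow_one]
  have h32 : 32 * F ≤ n := by
    have h1 : (M : ℝ) ≤ 1 / 32 * (n : ℝ) ^ (1 / κ) := by
      calc (M : ℝ) ≤ δ * N := hMle
        _ ≤ 1 / 2 * N := by gcongr
        _ ≤ 1 / 2 * (1 / 16 * (n : ℝ) ^ (1 / κ)) := by gcongr
        _ = _ := by ring
    have h2 : (M : ℝ) ^ κ ≤ 1 / 32 * n := by
      calc (M : ℝ) ^ κ ≤ (1 / 32 * (n : ℝ) ^ (1 / κ)) ^ κ :=
            Real.rpow_le_rpow (by positivity) h1 hκ0.le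
        _ = (1 / 32 : ℝ) ^ κ * n := by rw [Real.mul_rpow (by norm_num) (by positivity), hnκ]
        _ ≤ (1 / 32 : ℝ) ^ (1 : ℝ) * n := by
            gcongr ?_ * _
            exact Real.rpow_le_rpow_of_exponent_ge (by norm_num) (by norm_num) hκ
        _ = _ := by rw [Real.rpow_one]
    have h3 : (32 * F : ℝ) ≤ n := by linarith
    exact_mod_cast h3
  have hNn : N ≤ n := by
    have h1 : (n : ℝ) ^ (1 / κ) ≤ n := by
      calc (n : ℝ) ^ (1 / κ) ≤ (n : ℝ) ^ (1 : ℝ) := by
            apply Real.rpow_le_rpow_of_exponent_le hn1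
            rw [div_le_one hκ0]
            exact hκ
        _ = n := Real.rpow_one _
    have h2 : (N : ℝ) ≤ n := by linarith
    exact_mod_cast h2
  have hK : 2 * ((Finset.insertNone S).card * M) ≤ N := by
    rw [card_insertNone']
    have h1 : (2 * (((S.card + 1 : ℕ) : ℝ) * M) : ℝ) ≤ N := by
      push_cast
      calc (2 * (((S.card : ℝ) + 1) * M) : ℝ) ≤ 2 * (((S.card : ℝ) + 1) * (δ * N)) := by gcongr
        _ = N := by rw [hδ]; field_simp
    exact_mod_cast h1
  refine le_trans (Nat.mul_le_mul_left _ ?_) (sum_small n F N _ hK h32 hNn)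
  apply count_subsets (Finset.insertNone S) gg X M F N
  · intro A hA hA2
    have h1 := diffs_le hκ hS M A hA2
    have h2 : (diffs A).card = A.card := by
      apply Finset.card_image_of_injOn
      exact hX.mono (by exact_mod_cast hA)
    rw [h2] at h1
    exact h1
  · intro A hA
    rw [Finset.mem_filter] at hA
    refine ⟨hA.1, (big_le_iff S A M).1 ?_⟩
    apply Nat.le_floor
    exact hA.2.le

/-! ### Random sets of differences -/

theorem rand_lift {S : Finset ℚ} {κ : ℝ} (hκ : 1 ≤ κ) (hS : Bound S κ) (C η : ℝ) (hη0 : 0 < η)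
    (hη1 : η < 1) : ∃ δ : ℝ, 0 < δ ∧ ∀ (D : Finset ℤ) (X : Finset (ℤ × ℤ)),
      (X.card : ℝ) ≤ (D.card : ℝ) ^ C → ∀ N : ℕ, (N : ℝ) ≤ (D.card : ℝ) ^ ((1 - η) / κ) →
      2 ^ N * ((D.powersetCard N).filter
        (fun B => ∃ A ⊆ X, B ⊆ diffs A ∧ (big S A : ℝ) < δ * N)).card ≤ D.card.choose N := by
  have hκ0 : 0 < κ := by linarith
  set C' : ℝ := max C 1 with hC'
  have hC1 : 1 ≤ C' := le_max_right _ _
  set k : ℝ := (S.card : ℝ) + 1 with hk
  have hk1 : 1 ≤ k := by
    have : (0 : ℝ) ≤ (S.card : ℝ) := by positivity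
    linarith
  set δ : ℝ := min (η / (2 * (C' + 1) * k)) ((2 : ℝ) ^ (-(2 / η))) with hδ
  have hδ0 : 0 < δ := by
    apply lt_min
    · positivity
    · positivity
  have hδ1 : δ ≤ 1 := by
    refine (min_le_right _ _).trans ?_
    apply Real.rpow_le_one_of_one_le_of_nonpos (by norm_num)
    have : 0 < 2 / η := by positivity
    linarith
  refine ⟨δ, hδ0, fun D X hXD N hN => ?_⟩
  by_cases hsmall : δ * N ≤ 1
  · have : ((D.powersetCard N).filter
        (fun B => ∃ A ⊆ X, B ⊆ diffs A ∧ (big S A : ℝ) < δ * N)) = ∅ := by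
      apply Finset.filter_eq_empty_iff.2
      rintro B hB ⟨A, _, hBA, hlt⟩
      have h1 : (big S A : ℝ) < 1 := lt_of_lt_of_le hlt hsmall
      have h2 : big S A = 0 := by
        have : big S A < 1 := by exact_mod_cast h1
        omega
      have h3 := big_empty S A h2
      rw [h3] at hBA
      have h4 : B = ∅ := by simpa [diffs] using hBA
      rw [Finset.mem_powersetCard, h4] at hB
      have h5 : N = 0 := by simpa using hB.2.symm
      rw [h2, h5] at hlt
      simp at hlt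
    rw [this]
    simp
  push Not at hsmall
  set d := D.card with hd
  have hN1 : 1 / δ < N := by
    rw [div_lt_iff₀ hδ0]
    linarith
  have hNpos : (0 : ℝ) < N := lt_trans (by positivity) hN1
  have hexp : 0 < (1 - η) / κ := div_pos (by linarith) hκ0
  have hd0 : 0 < d := by
    rcases Nat.eq_zero_or_pos d with h | h
    · rw [h, Nat.cast_zero, Real.zero_rpow hexp.ne'] at hN
      linarith
    · exact h
  have hd1 : (1 : ℝ) ≤ d := by exact_mod_cast hd0
  have hNd : (N : ℝ) ≤ d := by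
    refine hN.trans ?_
    calc (d : ℝ) ^ ((1 - η) / κ) ≤ (d : ℝ) ^ (1 : ℝ) := by
          apply Real.rpow_le_rpow_of_exponent_le hd1
          rw [div_le_one hκ0]
          linarith
      _ = d := Real.rpow_one _
  have hdbig : (2 : ℝ) ^ (2 / η) ≤ d := by
    have h1 : (2 : ℝ) ^ (2 / η) ≤ 1 / δ := by
      rw [le_div_iff₀ hδ0]
      calc (2 : ℝ) ^ (2 / η) * δ ≤ (2 : ℝ) ^ (2 / η) * (2 : ℝ) ^ (-(2 / η)) := by
            gcongr
            exact min_le_right _ _
        _ = 1 := by rw [← Real.rpow_add (by norm_num)]; simp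
    linarith
  have hd2 : (2 : ℝ) ≤ (d : ℝ) ^ (η / 2) := by
    calc (2 : ℝ) = ((2 : ℝ) ^ (2 / η)) ^ (η / 2) := by
          rw [← Real.rpow_mul (by norm_num)]
          have : 2 / η * (η / 2) = 1 := by field_simp
          rw [this, Real.rpow_one]
      _ ≤ (d : ℝ) ^ (η / 2) := Real.rpow_le_rpow (by positivity) hdbig (by positivity)
  have hd22 : (2 : ℝ) ≤ d := by
    calc (2 : ℝ) ≤ (d : ℝ) ^ (η / 2) := hd2
      _ ≤ (d : ℝ) ^ (1 : ℝ) := Real.rpow_le_rpow_of_exponent_le hd1 (by linarith)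
      _ = d := Real.rpow_one _
  set M : ℕ := ⌊δ * N⌋₊ with hM
  have hMle : (M : ℝ) ≤ δ * N := Nat.floor_le (by positivity)
  set F : ℕ := ⌊(M : ℝ) ^ κ⌋₊ with hF
  have hFle : (F : ℝ) ≤ (M : ℝ) ^ κ := Nat.floor_le (by positivity)
  have hFd : (F : ℝ) ≤ (d : ℝ) ^ (1 - η) := by
    calc (F : ℝ) ≤ (M : ℝ) ^ κ := hFle
      _ ≤ (N : ℝ) ^ κ := by
          apply Real.rpow_le_rpow (by positivity) _ hκ0.le
          calc (M : ℝ) ≤ δ * N := hMle
            _ ≤ 1 * N := by gcongr
            _ = N := one_mul _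
      _ ≤ ((d : ℝ) ^ ((1 - η) / κ)) ^ κ := Real.rpow_le_rpow (by positivity) hN hκ0.le
      _ = (d : ℝ) ^ (1 - η) := by
          rw [← Real.rpow_mul (by positivity), div_mul_cancel₀ _ hκ0.ne']
  have hFd1 : F ≤ d := by
    have h1 : (d : ℝ) ^ (1 - η) ≤ (d : ℝ) ^ (1 : ℝ) :=
      Real.rpow_le_rpow_of_exponent_le hd1 (by linarith)
    rw [Real.rpow_one] at h1
    exact_mod_cast hFd.trans h1
  have hcount := count_lifts (Finset.insertNone S) gg (fun p : ℤ × ℤ => p.1 - p.2) X D M F N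
    (fun A _ hA2 => diffs_le hκ hS M A hA2)
    ((D.powersetCard N).filter (fun B => ∃ A ⊆ X, B ⊆ diffs A ∧ (big S A : ℝ) < δ * N))
    (by
      intro B hB
      rw [Finset.mem_filter] at hB
      obtain ⟨h1, A, h2, h3, h4⟩ := hB
      refine ⟨h1, A, h2, h3, (big_le_iff S A M).1 ?_⟩
      apply Nat.le_floor
      exact h4.le)
  rw [card_insertNone'] at hcount
  have hratio := choose_ratio F d N hFd1
  -- the numerical inequality
  have hX1 : ((X.card : ℝ) + 1) ≤ (d : ℝ) ^ (C' + 1) := by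
    have h1 : (X.card : ℝ) ≤ (d : ℝ) ^ C' :=
      hXD.trans (Real.rpow_le_rpow_of_exponent_le hd1 (le_max_left _ _))
    have h2 : (1 : ℝ) ≤ (d : ℝ) ^ C' := Real.one_le_rpow hd1 (by linarith)
    rw [Real.rpow_add (by linarith), Real.rpow_one]
    nlinarith
  have hnum : (2 : ℝ) ^ N * ((X.card : ℝ) + 1) ^ ((S.card + 1) * M) * (F : ℝ) ^ N ≤ (d : ℝ) ^ N := by
    have h1 : ((X.card : ℝ) + 1) ^ ((S.card + 1) * M) ≤ ((d : ℝ) ^ (η / 2)) ^ N := by
      calc ((X.card : ℝ) + 1) ^ ((S.card + 1) * M)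
          ≤ ((d : ℝ) ^ (C' + 1)) ^ ((S.card + 1) * M) := by
            apply pow_le_pow_left₀ (by positivity) hX1
        _ = (d : ℝ) ^ ((C' + 1) * (k * M)) := by
            rw [← Real.rpow_natCast, ← Real.rpow_mul (by positivity)]
            push_cast
            rw [hk]
        _ ≤ (d : ℝ) ^ (η / 2 * N) := by
            apply Real.rpow_le_rpow_of_exponent_le hd1
            calc (C' + 1) * (k * M) ≤ (C' + 1) * (k * (δ * N)) := by gcongr
              _ ≤ (C' + 1) * (k * (η / (2 * (C' + 1) * k) * N)) := by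
                  gcongr
                  exact min_le_left _ _
              _ = η / 2 * N := by field_simp
        _ = ((d : ℝ) ^ (η / 2)) ^ N := by
            rw [Real.rpow_mul (by positivity), Real.rpow_natCast]
    calc (2 : ℝ) ^ N * ((X.card : ℝ) + 1) ^ ((S.card + 1) * M) * (F : ℝ) ^ N
        ≤ ((d : ℝ) ^ (η / 2)) ^ N * ((d : ℝ) ^ (η / 2)) ^ N * ((d : ℝ) ^ (1 - η)) ^ N := by
          gcongr
      _ = (d : ℝ) ^ N := by
          rw [← mul_pow, ← mul_pow, ← Real.rpow_add (by linarith), ← Real.rpow_add (by linarith)]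
          congr 1
          have : η / 2 + η / 2 + (1 - η) = 1 := by ring
          rw [this, Real.rpow_one]
  have hnum' : 2 ^ N * (X.card + 1) ^ ((S.card + 1) * M) * F ^ N ≤ d ^ N := by
    exact_mod_cast hnum
  have hdN : 0 < d ^ N := Nat.pow_pos hd0
  apply Nat.le_of_mul_le_mul_right _ hdN
  calc 2 ^ N * _ * d ^ N
      ≤ 2 ^ N * ((X.card + 1) ^ ((S.card + 1) * M) * F.choose N) * d ^ N := by gcongr
    _ = 2 ^ N * (X.card + 1) ^ ((S.card + 1) * M) * (F.choose N * d ^ N) := by ring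
    _ ≤ 2 ^ N * (X.card + 1) ^ ((S.card + 1) * M) * (d.choose N * F ^ N) := by gcongr
    _ = d.choose N * (2 ^ N * (X.card + 1) ^ ((S.card + 1) * M) * F ^ N) := by ring
    _ ≤ d.choose N * d ^ N := by gcongr

end Pool.Agent.R535.AK
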